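import Pool.Agent.MP_5d9b3c_ag.O3D.Spec
import Pool.Agent.MP_5d9b3c_ag.P3D.RBas

/-! The faces of a polar divisor. -/

namespace Pool.Agent.MP_ee8c61_ag.N3.BK.P3D

open Pool.Agent.MP_5d9b3c_ag Pool.Agent.MP_5d9b3c_ag.P3D

set_option linter.unusedSectionVars false

variable [Base]

open M3 M3RESID M3BK P3 P3K P3T Set

namespace RBo

variable {p : ℕ} [Fact p.Prime] [Algebra ℚ_[p] ℂ] [Rgn p] [Algebra.IsAlgebraic ℚ_[p] ℂ] (X : Ctx p)

theorem rho_iff (b : X.𝓑.ι) (i : Fin 3) :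
    rho (X.d b) p (cT X.T) i = 1 ↔ ∃ o, X.𝓑.lab b i = some o ∧ X.Pol o := by
  have p1 : (1 : ℕ) < p := (Fact.out : p.Prime).one_lt
  have p0 : (p : ℂ) ≠ 0 := Nat.cast_ne_zero.2 (by omega)
  rw [rho, Fin.prod_univ_two, X.dν, X.dA, X.dA]
  rcases X.𝓑.lab b i with _ | o
  · simpa using p1.ne'
  · simp only [Option.elim_some, Option.some.injEq, exists_eq_left', Ctx.Pol, zpow_neg,
      inv_mul_eq_one₀ (zpow_ne_zero _ p0)]
    simp [eq_comm]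

theorem u_ne (b : X.𝓑.ι) : (dn3 X.f).u ≠ 0 := ((X.adp b).fn 0).ne

theorem w_ne (b : X.𝓑.ι) : (dn3 X.f).w (X.𝓑.c b).b ≠ 0 := (X.adp b).frm.ne

end RBo

variable (p : ℕ) [Fact p.Prime] [Algebra ℚ_[p] ℂ] [Rgn p] [Algebra.IsAlgebraic ℚ_[p] ℂ]

open RBo in
open MP_5d9b3c_ag.P3D.RBas (le_refl la_mul jac_ne) in
theorem rBAS : OfBAS p := by
  intro R D O
  have pol : ∀ {X : Ctx p} {o : X.M.J} (S : ES X o) (x : X.𝓑.F1 o),
      (dn3 X.f).Pol X.T (X.𝓑.c x.1.1) (X.M.v o).pl.o := fun S x =>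
    (R.pol (S.s.fc x).on (Ctx.adp _ _)).1.2 ((rho_iff _ _ _).2 ⟨_, x.2, S.pol⟩)
  have adp : ∀ {X : Ctx p} {o : X.M.J} (S : ES X o) x,
      (S.δ x).Adp (S.s.g x).b (S.δ x).u (S.d x) := fun S x => R.adp (S.s.fc x) (Ctx.adp _ _)
  refine ⟨fun {X o} S x => O.res X.nrm (S.s.fc x) (u_ne X x.1.1) (w_ne X _) (pol S x)
      (O.top _ _ _ X.fe) S.sta.rd, adp, fun {X o} S x => ⟨((adp S x).fn 0).reg fun l => ?_,
      (adp S x).frm.reg fun l => ?_⟩,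
    fun {X o} S x x' => (D X.lam (S.s.fc x) (S.s.fc x') (le_refl _ _ _) (u_ne X x.1.1) (w_ne X _)
      (pol S x)).2,
    fun {X o} S x g => ⟨((adp S x).fn 0).ne, mul_ne_zero (left_ne_zero_of_mul (adp S x).frm.ne) ?_⟩,
    fun {X o} S x => ⟨(S.s.fc x).on.at.vz, ?_⟩, fun {X o} S y => rho_iff X _ _,
    fun X o h => ?_, fun X => la_mul X.nrm ((X.lam _ _).2 ⟨1, (one_mul _).symm, (one_mul _).symm⟩)⟩
  · change 0 ≤ (X.d _).A 0 _
    rw [X.dA]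
    rcases X.𝓑.lab _ _ with _ | j
    · exact le_rfl
    · exact Int.natCast_nonneg _
  · change 0 ≤ (X.d _).ν _ - 1
    rw [X.dν]
    rcases X.𝓑.lab _ _ with _ | j
    · exact le_rfl
    · exact (Int.natCast_nonneg (X.M.k j)).trans_eq (add_sub_cancel_right _ _).symm
  · exact (funext (S.s.fc x).fc.z : (S.s.g x).b.z = (S.δ x).r) ▸ jac_ne g (S.s.g x).b
  · have h1 : (X.M.v o).v (X.f : KK 3) = X.M.a o := by
      have := R.ord (S.s.fc x).on ((X.adp x.1.1).fn 0)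
      rw [X.dA, x.2] at this
      exact this
    have h2 := (S.s.fc x).on.at.vz
    have h3 : (X.f : KK 3) ≠ 0 := fun e => u_ne X x.1.1 (Subtype.ext e)
    have h4 : ((X.f / (X.𝓑.c x.1.1).b.z x.1.2 ^ (X.M.v o).v (X.f : KK 3) : (AK p).fix) : KK 3) =
        X.f / (X.𝓑.c x.1.1).C.z x.1.2 ^ (X.M.v o).v (X.f : KK 3) := by
      rw [Subfield.coe_div, ← CBox.z]
      exact congrArg _ (map_zpow₀ (AK p).fix.subtype _ _)
    refine (coe_pf (rc S.inv) (h4 ▸ Or.inr (v_unit h3 h2).2.2.ge)).trans ?_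
    rw [← X.fe, ← zpow_natCast, ← h1]
    exact congrArg _ h4
  · have := la_mul X.nrm h
    simp only [Mod.aa, Mod.kk] at this
    push_cast at this
    rw [Mod.ex, this, sub_self]

end Pool.Agent.MP_ee8c61_ag.N3.BK.P3D
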