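import Pool.Agent.MP_ee8c61_ag.N3BK.RSurfA

/-! A vector field that kills the generators of the base kills the base ring. -/

namespace Pool.Agent.MP_ee8c61_ag.N3.BK.P3D

open M3 M3BK M3RESID Set

theorem kill_val {k : Type} [Field k] [Algebra ℂ k] (v : VF k) {y : k}
    (h : ∀ W : ValuationSubring k, (∀ c, v c = 0 → c ∈ W) → y ∈ W) : v y = 0 := by
  let F : Subfield k :=
    { carrier := {c | v c = 0}
      mul_mem' := fun {a b} (ha : v a = 0) (hb : v b = 0) => by
        show v (a * b) = 0
        rw [v.leibniz, ha, hb, smul_zero, smul_zero, add_zero]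
      one_mem' := v.map_one_eq_zero
      add_mem' := fun {a b} (ha : v a = 0) (hb : v b = 0) => by
        show v (a + b) = 0
        rw [map_add, ha, hb, add_zero]
      zero_mem' := map_zero v
      neg_mem' := fun {a} (ha : v a = 0) => by
        show v (-a) = 0
        rw [map_neg, ha, neg_zero]
      inv_mem' := fun a (ha : v a = 0) => by
        show v a⁻¹ = 0
        rw [v.leibniz_inv, ha, smul_zero] }
  have h1 : y ∈ (integralClosure (Subring.closure (F : Set k)) k).toSubring := by
    rw [← iInf_valuationSubring_superset, Subring.mem_iInf]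
    exact fun W => h W.1 fun c hc => W.2 hc
  have h2 : IsIntegral F y := by
    have e : Subring.closure (F : Set k) = F.toSubring := Subring.closure_eq F.toSubring
    have h3 : IsIntegral (Subring.closure (F : Set k)) y := h1
    rw [e] at h3
    exact h3
  have : CharZero k := charZero_of_injective_algebraMap (algebraMap ℂ k).injective
  have key : ∀ q : Polynomial F, v (Polynomial.aeval y q) =
      Polynomial.aeval y (Polynomial.derivative q) * v y := fun q => by
    induction q using Polynomial.induction_on' with
    | add p q hp hq => simp only [map_add, hp, hq, add_mul]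
    | monomial n a =>
      have ha : v (algebraMap F k a) = 0 := a.2
      rw [Polynomial.derivative_monomial, Polynomial.aeval_monomial, Polynomial.aeval_monomial,
        v.leibniz, ha, smul_zero, add_zero, v.leibniz_pow]
      simp [mul_assoc]
  have h4 := key (minpoly F y)
  rw [minpoly.aeval, map_zero] at h4
  exact (mul_eq_zero.1 h4.symm).resolve_left
    ((minpoly.irreducible h2).separable.aeval_derivative_ne_zero (minpoly.aeval F y))

variable [Base] {k : Type} [Field k] [Algebra ℂ k] {P : Pl (KK 3) k}

theorem kill_Rb (hO : Ov P.o.O) (v : VF k) (h : ∀ c ∈ xb P, v c = 0) {g : KK 3}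
    (hg : g ∈ Rb 3) : v (P.π g) = 0 :=
  kill_val v fun W hW => (mem_Rb.1 hg (RSurf.lift P W) (ov_iff.2 ⟨fun c =>
    ⟨hO (algebraMap ℂ _ c), P.π_cst c ▸ hW _ (v.map_algebraMap c)⟩,
    fun l => ⟨hO (xp 3 l), hW _ (h _ ⟨l, rfl⟩)⟩⟩)).2

end Pool.Agent.MP_ee8c61_ag.N3.BK.P3D
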