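import Pool.Agent.MP_5d9b3c_ag.O3D.Kit
import Pool.Agent.MP_5d9b3c_ag.O3D.Kill
import Pool.Agent.MP_5d9b3c_ag.P3D.RCurB
import Pool.Agent.MP_ee8c61_ag.N3BK.RSrf
import Pool.Agent.MP_ee8c61_ag.N3BK.RPt

/-! The type of a polar curve. -/

namespace Pool.Agent.MP_ee8c61_ag.N3.BK.P3D

open Pool.Agent.MP_5d9b3c_ag Pool.Agent.MP_5d9b3c_ag.P3D

set_option linter.unusedSectionVars false

variable [Base]

open M3 M3RESID M3BK P3 P3K P3T P3B Set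

variable (p : ℕ) [Fact p.Prime] [Algebra ℚ_[p] ℂ] [Rgn p] [Algebra.IsAlgebraic ℚ_[p] ℂ]

theorem rCURb : OfCUR p := by
  intro O B H X o S x g G hG m q hq hP
  obtain ⟨h1, h2⟩ := B.cu S x
  obtain ⟨v', y, g', h⟩ := S.sta.star _ h1
  obtain ⟨C, hC⟩ := rSrf X.eo (rPt X.eo) X.f₀ X.la X.b X.β X.q X.M o _ (X.M.v o).pl S.e S.v X.hyp
    X.ok rfl (B.ex X o S.pol) S.sta.rd S.sta.rs
  obtain ⟨n, h3, -⟩ := (X.lam _ _).1 S.pol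
  obtain ⟨n', h4, -⟩ := (X.lam _ _).1 hP
  rw [← h2] at h
  obtain ⟨u0, w0⟩ := B.ne S x g.b
  have hv : Dvs G := ⟨_, _, hq.on.at⟩
  have hx : Exp S.e G 0 := O.exp X.nrm hq.on u0 w0 hP (B.of S x)
  have hD : X.N ∣ G.v (S.δ x).u := Dvd.intro_left n' h4.symm
  obtain ⟨σ, hσ, θ, μ, μ0, hT⟩ := typ_pos (A := rA hG) (P := G.pl) hC h S.sta.id X.hg.ev
    (coe_ne u0) (S.δ x).u.2 (Dvd.intro_left n h3.symm) (rc hG) hv hx
  obtain ⟨e, he⟩ := hT.ex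
  have hd := O.res X.nrm hq u0 w0 hP (B.of S x) he
  have hj : ((S.δ x).rs g (rc hG) m).w q.b ≠ 0 := by
    rw [Dn.w, Dn.rs, hq.zf, q.b.jac_self, mul_one]
    exact ini_ne (rc hG) hq.vz w0
  have hu : (((S.δ x).rs g (rc hG) m).u : G.kf) =
      G.pl.π ((S.δ x).u / (g.b.z m : S.k) ^ G.v (S.δ x).u) :=
    (coe_pf (rc hG) (Or.inr (v_ini hq.vz u0).ge)).trans (by
      rw [Subfield.coe_div, CurB.coe_zp]; rfl)
  obtain ⟨_, ⟨c, rfl⟩, w, wf, j, c0, w1, h5⟩ :=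
    hT.ch_fix (rA hG) (rc hG) hσ (S.δ x).u.2 (g.b.z m).2 hq.vz hD
  have g0 := CurB.good q (σ := ⟨σ, hσ⟩) (w := ⟨w, wf⟩) X.nrm (B.lam X) hT.p1 hd (hT.dl e he) hT.ne
    hj ((map_ne_zero _).1 c0) (fun e => w1 (congrArg Subtype.val e)) (hu.trans h5) (.inl rfl)
  rw [map_zero, sub_zero] at g0
  refine ⟨⟨σ, hσ⟩, g0, ⟨θ, μ, hT.eu⟩, ?_, fun ψ hψ t ht hm => ?_⟩
  · rintro _ ⟨l, rfl⟩
    by_cases k2 : (pf (rc S.inv) (tK p l) : S.k) ∈ G.pl.o.F 0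
    swap
    · exact ⟨0, by simp only [pf.eq_1 (rc hG), dif_neg k2, map_zero]⟩
    have k3 : v' (pf (rc S.inv) (tK p l)) = 0 := by
      by_cases k1 : (tK p l : KK 3) ∈ (X.M.v o).pl.o.F 0
      · rw [coe_pf (rc S.inv) k1]
        exact kill_Rb (P := (X.M.v o).pl) ((X.eo.bas 3 _ _ X.ok).ov_v o) v' h.base (tP p l).2
      · simp only [pf, dif_neg k1, ZeroMemClass.coe_zero, map_zero]
    obtain ⟨r, hr⟩ := hT.cs _ k2 k3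
    obtain ⟨r, rfl⟩ := (rA hG).cst_fix_iff.1 (hr ▸ pi_fix (rc hG) k2)
    exact ⟨r, Subtype.ext (hr.trans (coe_pf (rc hG) k2).symm)⟩
  · obtain ⟨C', a, m', k1, k2⟩ := H.gp S x t ht
    obtain ⟨c', s, i, i', c1, s0, k3, k4⟩ := xc_fix (rA hG) hC.ne hC.prim k1 k2 hm hv hx hT μ0 hψ
      (rc hG) hσ ψ.2 (S.δ x).u.2 (S.δ x).u.2 one_ne_zero (by rw [one_zpow, mul_one]) hD
    have ψ0 : ψ ≠ 0 := fun e => hψ.1 (congrArg Subtype.val e)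
    have k5 : S.th hG ψ x = c' • ((⟨σ, hσ⟩ : (rA hG).fix) ^ i *
        (⟨σ, hσ⟩ - algebraMap ℚ_[p] _ s) ^ i') := Subtype.ext <| by
      refine (coe_pf (rc hG) (Or.inr (le_of_eq ?_))).trans ?_
      · rw [v_div _ (zpow_ne_zero _ ψ0) (zpow_ne_zero _ u0), v_zp, v_zp, mul_comm]
        exact (sub_self _).symm
      · rw [Subfield.coe_div, CurB.coe_zp, CurB.coe_zp, k3, Algebra.smul_def]
        simp only [Subfield.coe_mul, CurB.coe_zp, coe_alg, cF_ap, mul_assoc,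
          Subfield.coe_sub]
    rcases k4 with rfl | ⟨k4, k6⟩
    · exact ⟨c', _, _, i, 0, c1, g0, g0, by simpa using k5⟩
    · obtain ⟨a', w', wf', a0, w2, k7⟩ := k6 _ (g.b.z m).2 hq.vz
      exact ⟨c', _, _, i, i', c1, g0, CurB.good q (σ := ⟨σ, hσ⟩) (w := ⟨w', wf'⟩) (m := 0) X.nrm
        (B.lam X) hT.p1 hd (hT.dl e he) hT.ne hj a0 (fun e => w2 (congrArg Subtype.val e))
        (by rw [hu, k7, zpow_zero, mul_one]) (.inr ⟨rfl, k4⟩), k5⟩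

end Pool.Agent.MP_ee8c61_ag.N3.BK.P3D
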