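import Pool.Agent.MP_5d9b3c_ag.O3D.Kit
import Pool.Agent.MP_5d9b3c_ag.O3D.Kill
import Pool.Agent.MP_5d9b3c_ag.P3D.RFRM
import Pool.Agent.MP_ee8c61_ag.N3BK.RSrf
import Pool.Agent.MP_ee8c61_ag.N3BK.RPt

/-! The frame on a polar divisor. -/

namespace Pool.Agent.MP_ee8c61_ag.N3.BK.P3D

open Pool.Agent.MP_5d9b3c_ag Pool.Agent.MP_5d9b3c_ag.P3D

set_option linter.unusedSectionVars false

variable [Base]

open M3 M3RESID M3BK P3 P3B P3K P3T Set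

theorem rFRM (p : ℕ) [Fact p.Prime] [Algebra ℚ_[p] ℂ] [Rgn p] [Algebra.IsAlgebraic ℚ_[p] ℂ] :
    OfFRM p := by
  intro B X o S x
  obtain ⟨hz, hu⟩ := B.cu S x
  obtain ⟨v', y, g, h⟩ := S.sta.star _ hz
  rw [← hu] at h
  obtain ⟨C, hS⟩ := rSrf X.eo (rPt X.eo) X.f₀ X.la X.b X.β X.q X.M o _ _ S.e S.v X.hyp X.ok rfl
    (B.ex X o S.pol) S.sta.rd S.sta.rs
  obtain ⟨u0, w0⟩ := B.ne S x (S.s.g x).b
  obtain ⟨n, hn, -⟩ := (X.lam _ _).1 S.pol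
  obtain ⟨C₁, c, γ, w, m, a, h0, h1, h2, cf, γf, wf, hc, hγ, c0, γ0, w1, e1, e2, -⟩ :=
    rat_star h hS.ne hS.prim (C := (S.s.g x).C) (fun l => (S.s.g x).z l ▸ ((S.s.g x).b.z l).2)
      (B.of S x (S.s.g x)) (D := X.N) (ν := X.ν) (fun e => w0 (Subtype.ext e))
      (fun e => u0 (Subtype.ext e)) (Subtype.prop _) (Subtype.prop _) ⟨n, hn.trans (mul_comm _ _)⟩
      (by exact_mod_cast B.lam X)
  obtain ⟨τ, τ', T, t1, t2⟩ := tau_star h hS.ne (q := p)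
    (Nat.cast_ne_zero.2 (Fact.out : p.Prime).ne_zero)
  rw [Rat.cast_natCast] at t1
  have y0 := h.y0
  have gy : M3BK.Gd S.e S.v y := by simpa using gd_star h hS.prim one_ne_zero (by simp) 0
  have gc : ∀ t, t ≠ 0 → v' t = 0 → M3BK.Gd S.e S.v t := fun t t0 ht =>
    M3BK.Gd.congr (v := v') ⟨t0, 0, by simp [ht]⟩ h.ex
  have mon : ∀ t (k : ℤ), v' t = 0 → τ (t * y ^ k) = (p : S.k) ^ k * (t * y ^ k) :=
    fun t k ht => by rw [map_mul, map_zpow₀, t1, t2 t ht, mul_zpow, mul_left_comm]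
  let A : Fin 4 → S.B.fix := ![⟨y, h.fix⟩, ⟨C₁.z 1, h1 1⟩,
    ⟨c * y ^ m, mul_mem cf (zpow_mem h.fix m)⟩, ⟨γ * y ^ (a - 1), mul_mem γf (zpow_mem h.fix _)⟩]
  have gA : ∀ l, M3BK.Gd S.e S.v (A l) := fun l => by
    fin_cases l
    exacts [gy, gc _ (C₁.ne 1) h2, (gc _ c0 hc).mul (RFRM.gd_zpow gy _),
      (gc _ γ0 hγ).mul (RFRM.gd_zpow gy _)]
  refine ⟨A, ![1, 0, m, a - 1], τ', fun l => ⟨fun e => (gA l).1 (congrArg Subtype.val e),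
    Subtype.ext ?_⟩, rfl, ?_, ⟨⟨w, wf⟩, fun e => w1 (congrArg Subtype.val e), Subtype.ext ?_, 1,
    norm_one, fun b => ?_⟩, fun k => ?_⟩
  · rw [T.coe]
    push_cast
    fin_cases l
    · simpa [A] using t1
    · simpa [A] using t2 _ h2
    · exact mon c m hc
    · exact mon γ _ hγ
  · rintro _ ⟨l, rfl⟩
    refine Subtype.ext ((T.coe _).trans (t2 _ ?_))
    show v' (pf (rc S.inv) (tK p l) : S.k) = 0
    by_cases e : ((tK p l : (AK p).fix) : KK 3) ∈ (X.M.v o).pl.o.F 0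
    · rw [coe_pf _ e]
      exact kill_Rb (P := (X.M.v o).pl) ((X.eo.bas 3 _ _ X.ok).ov_v o) v' h.base
        (tP p l).2
    · rw [pf, dif_neg e]
      exact map_zero _
  · push_cast
    exact e1
  · have j1 : ((S.s.g x).b.jac ![A 0, A 1] : S.k) = C₁.jac (S.s.g x).C :=
      (S.s.g x).coe_jac fun l => by
        fin_cases l
        exacts [h0.symm, rfl]
    have j2 : (S.δ x).w (S.s.g x).b = ⟨w, wf⟩ ^ X.ν * (A 3 * (S.s.g x).b.jac ![A 0, A 1]) := by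
      refine Subtype.ext (mul_right_cancel₀ ((S.s.g x).C.jac_ne C₁) ?_)
      push_cast
      have e3 : (((⟨w, wf⟩ : S.B.fix) ^ X.ν : S.B.fix) : S.k) = w ^ X.ν := by push_cast; rfl
      rw [e2, j1, e3, mul_assoc (w ^ X.ν), mul_assoc, mul_assoc, ← co_chain, co_self, mul_one,
        mul_comm (w ^ X.ν), ← mul_assoc]
      rfl
    rw [one_smul, Dn.w, Dn.w, rSpn.chain b (S.s.g x).b (S.δ x).r,
      rSpn.chain b (S.s.g x).b ![A 0, A 1], mul_left_comm, ← Dn.w, j2]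
    ring
  · push_cast
    rw [Fin.prod_univ_four]
    exact (((RFRM.gd_zpow (gA 0) _).mul (RFRM.gd_zpow (gA 1) _)).mul
      (RFRM.gd_zpow (gA 2) _)).mul (RFRM.gd_zpow (gA 3) _)

end Pool.Agent.MP_ee8c61_ag.N3.BK.P3D
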