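import Pool.Agent.MP_5d9b3c_ag.O3D.Kit
import Pool.Agent.MP_5d9b3c_ag.P3X.Face

/-! An exceptional curve does not contribute. -/

namespace Pool.Agent.MP_ee8c61_ag.N3.BK.P3D

open Pool.Agent.MP_5d9b3c_ag Pool.Agent.MP_5d9b3c_ag.P3D

set_option linter.unusedSectionVars false

variable [Base]

open M3 M3RESID M3BK P3 P3K P3T P3B Set

theorem rGEX (p : ℕ) [Fact p.Prime] [Algebra ℚ_[p] ℂ] [Rgn p] [Algebra.IsAlgebraic ℚ_[p] ℂ] :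
    OfGEX p := by
  classical
  intro hF hC hJ hV hR hD hB hK X o S U G hG x h1 h2
  by_cases hz : ∃ z, U.Pl z ∧ U.On G z
  swap
  · have e : ∀ g : U.𝓦.F1 (U.D.e o) × Fin 2 → ℂ, ∑ z with U.Pl z ∧ U.On G z, g z = 0 :=
      fun g => Finset.sum_eq_zero fun z h => absurd ⟨z, (Finset.mem_filter.1 h).2⟩ hz
    exact ⟨e _, e _⟩
  obtain ⟨z₀, p0, o0⟩ := hz
  have adp : ∀ z, U.On G z → (S.δ x).Adp (U.s.g z.1).b U.ψ (U.d z.1) := fun z h =>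
    h1 z h ▸ U.adp z.1
  choose c hc using fun z : U.s.F2 G =>
    hF _ _ 1 S.B (rA hG) G.pl (rc hG) (U.s.g z.1.1) z.1.2 z.2.2
  let y₀ : U.s.F2 G := ⟨z₀, (U.nz _ _ p0).2.2, o0⟩
  have q0 : (S.δ x).Pol X.T (U.s.g z₀.1) G := (hR.pol o0 (adp z₀ o0)).1.2 p0
  have rs := fun y : U.s.F2 G => hD X.lam (hc y₀) (hc y) (Dn.LE.refl (S.δ x))
    (hB.ne S x (U.s.g z₀.1).b).1 (hB.ne S x (U.s.g z₀.1).b).2 q0
  have pl : ∀ y : U.s.F2 G, U.Pl y.1 := fun y => (hR.pol y.2.2 (adp _ y.2.2)).1.1 (rs y).1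
  have e : ∀ g : U.𝓦.F1 (U.D.e o) × Fin 2 → ℂ,
      ∑ z with U.Pl z ∧ U.On G z, g z = ∑ y : U.s.F2 G, g y.1 := fun g =>
    Finset.sum_subtype _ (fun z => by
      rw [Finset.mem_filter]
      exact ⟨fun h => ⟨(U.nz _ _ h.2.1).2.2, h.2.2⟩,
        fun h => ⟨Finset.mem_univ _, pl ⟨z, h⟩, h.2⟩⟩) g
  obtain ⟨s1, s2, s3⟩ := hC X.f₀ X.f U.W U.𝓦 (U.D.e o) _ _ S.B _ (rc S.inv) U.s (rA hG) G.pl
    (rc hG) c U.ok U.stp hc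
  have fl : Full (fun y => (c y).b) (x2 (rc S.inv) (rc hG)) :=
    ⟨s1.dis, s2, cov_of (b := fun y => (c y).b) Subtype.val (s3 y₀)⟩
  obtain ⟨σ, g1, -, g2, g3⟩ := hK S x (U.s.g z₀.1) hG z₀.2 (c y₀) (hc y₀) q0
  obtain ⟨t, ht, hd⟩ := h2
  have u0 := (hB.ne S x (U.s.g z₀.1).b).1
  have ψ0 : U.ψ ≠ 0 := fun h => U.gd.1 (by rw [h]; rfl)
  have ad := fun y : U.s.F2 G => hR.adp (hc y) (adp _ y.2.2)
  obtain ⟨a1, a2⟩ := hV.cur X.lam fl g2 g1 (fun y => (rs y).2) fun y =>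
    hJ.self (-G.v U.ψ) (G.v (S.δ x).u) (ad y) (hV.np X.lam g1 (rs y).2 (ad y))
  have a3 := a2 _ (g3 U.ψ U.gd t ht hd) fun y => (hR.ini (rc hG)
    (((congrArg G.v ((U.s.g y.1.1).z y.1.2))).trans (CBox.On.at y.2.2).vz) ψ0 u0).2.symm
  have k0' : ∀ y : U.s.F2 G, kk (U.d y.1.1) k0 y.1.2 = G.v (S.δ x).u := fun y =>
    (hR.pol (T := X.T) y.2.2 (adp _ y.2.2)).2.1
  have k1' : ∀ y : U.s.F2 G, kk (U.d y.1.1) k1 y.1.2 = G.v U.ψ := fun y =>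
    (hR.pol (T := X.T) y.2.2 (adp _ y.2.2)).2.2
  have n0 : (G.v (S.δ x).u : ℂ) ≠ 0 := Int.cast_ne_zero.2 (k0' y₀ ▸ (U.nz _ _ p0).1)
  have n1 : (G.v U.ψ : ℂ) ≠ 0 := Int.cast_ne_zero.2 (k1' y₀ ▸ (U.nz _ _ p0).2.1)
  rw [e, e]
  simp only [ES.Ups.pt, ES.Ups.ct, k0', k1']
  refine ⟨by rw [← Finset.sum_mul, a1, zero_mul], ?_⟩
  refine mul_left_cancel₀ (neg_ne_zero.2 (mul_ne_zero n0 n1)) ?_
  rw [mul_zero, ← a3, Finset.mul_sum]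
  refine Finset.sum_congr rfl fun y _ => ?_
  push_cast
  field_simp
  ring

end Pool.Agent.MP_ee8c61_ag.N3.BK.P3D
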