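import Pool.Agent.MP_5d9b3c_ag.O3D.Kit

/-! Two polar curves do not meet. -/

namespace Pool.Agent.MP_ee8c61_ag.N3.BK.P3D

open Pool.Agent.MP_5d9b3c_ag Pool.Agent.MP_5d9b3c_ag.P3D

export Pool.Agent.MP_5d9b3c_ag.P3D (rc)

set_option linter.unusedSectionVars false

variable [Base]

variable (p : ℕ) [Fact p.Prime] [Algebra ℚ_[p] ℂ] [Rgn p] [Algebra.IsAlgebraic ℚ_[p] ℂ]

theorem rNp : OfNP2 p := by
  intro hF hV hR hC X o S x g G hG m θ d h1 h2 h3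
  obtain ⟨q, hq⟩ := hF _ _ 1 _ _ _ (rc hG) g m h1
  obtain ⟨σ, h4, -⟩ := hC S x g hG m q hq ((hR.pol h1 h2).1.2 h3)
  exact hV.np X.lam h4 (.refl _) (hR.adp hq h2)

end Pool.Agent.MP_ee8c61_ag.N3.BK.P3D
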