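import Pool.Agent.MP_5d9b3c_ag.O3D.Spec
import Pool.Agent.MP_5d9b3c_ag.P3D.ROF

/-! The divergence of a density. -/

namespace Pool.Agent.MP_ee8c61_ag.N3.BK.P3D

open Pool.Agent.MP_5d9b3c_ag Pool.Agent.MP_5d9b3c_ag.P3D

set_option linter.unusedSectionVars false

variable [Base]

open M3 M3RESID M3BK P3 P3K P3T Set

variable (p : ℕ) [Fact p.Prime] [Algebra ℚ_[p] ℂ] [Rgn p] [Algebra.IsAlgebraic ℚ_[p] ℂ]

theorem rOF : SOF p where
  top f₀ f la he c := by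
    have h : (((dn3 f).w c.b : (AK p).fix) : KK 3) = 1 * (M3.co 3).jac c.C := by
      rw [← c.coe_jac (r := xK p) fun _ => rfl]
      rfl
    rw [h, ← dn_chg _ _ one_ne_zero, dn_one, dvf, ← he]
    rfl
  res := (MP_5d9b3c_ag.P3D.rOF p).res
  exp := (MP_5d9b3c_ag.P3D.rOF p).exp
  ad := (MP_5d9b3c_ag.P3D.rOF p).ad

end Pool.Agent.MP_ee8c61_ag.N3.BK.P3D
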