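import Pool.Agent.MP_5d9b3c_ag.O3D.RBKP
import Pool.Agent.MP_5d9b3c_ag.P3D.ROUT

/-! The constant term of the integral over a polar divisor. -/

namespace Pool.Agent.MP_ee8c61_ag.N3.BK.P3D

open Pool.Agent.MP_5d9b3c_ag Pool.Agent.MP_5d9b3c_ag.P3D

set_option linter.unusedSectionVars false

variable [Base]

open M3 M3RESID M3BK P3 P3K P3T Finset

variable (p : ℕ) [Fact p.Prime] [Algebra ℚ_[p] ℂ] [Rgn p] [Algebra.IsAlgebraic ℚ_[p] ℂ]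

theorem rOUT : OfOUT p := by
  intro hF hL hR hD hO hB hN hU hC hX hG X o S hne
  classical
  obtain ⟨U⟩ := hU S hne
  have g0 : ∀ x, (S.δ x).u ≠ 0 := fun x => (hB.ne S x (S.s.g x).b).1
  have g1 : ∀ y, S.Pl y → S.s.lb y ≠ none := fun y h =>
    ((hB.pl _ y).1 h).elim fun o' h' => h'.1 ▸ Option.some_ne_none o'
  have g2 : ∀ z, U.Pl z ↔ ∃ G : {G // S.B.InvO G}, U.Pl z ∧ U.On G z := fun z =>
    ⟨fun h => (U.𝓦.crv _ _ z.2 (fun e => Option.some_ne_none _ (z.1.2.symm.trans e))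
      (U.nz _ _ h).2.2 _ _ _ _ _ (U.s.fc z.1)).elim fun G k => ⟨⟨G, k.1⟩, h, k.2⟩,
      fun h => h.elim fun _ k => k.1⟩
  have g3 : ∀ y, S.Pl y ↔ ∃ G : {G // S.B.InvO G}, S.Pl y ∧ S.On G y := fun y =>
    ⟨fun h => (S.exG (g1 y h)).elim fun G k => ⟨⟨G, k.1⟩, h, k.2⟩, fun h => h.elim fun _ k => k.1⟩
  have H : ∀ G : {G // S.B.InvO G}, ∑ z with U.Pl z ∧ U.On G z, U.pt z = 0 ∧
      ∃ R : X.𝓑.F1 o × Fin 2 → ℂ, ∑ z with U.Pl z ∧ U.On G z, U.ct z =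
        ∑ y with S.Pl y ∧ S.On G y, R y ∧ ∀ y, S.Pl y → S.Crs G.2 U.ψ y (R y) := fun G => by
    by_cases h : ∃ z, U.Pl z ∧ U.On G z
    · obtain ⟨z, h1, h2⟩ := id h
      refine (hC U G (hO.exp X.nrm h2 (g0 _) (hB.ne S _ _).2
        ((hR.pol h2 (U.adp _)).1.2 h1) (hB.of S _))).elim (fun k => ?_) (hG U G G.2 h)
      obtain ⟨h3, h4⟩ := hX U G G.2 _ (fun z' h' => (k.2 z' z h' h2).1) (k.2 z z h2 h2).2
      exact ⟨h3, 0, by simpa using h4, fun y hy q hq => (k.1 y (g1 y hy) hq.on).elim⟩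
    · have k : ∀ y, S.Pl y → ¬S.On G y := fun y h1 h2 => by
        obtain ⟨z⟩ := hL _ _ _ _ U.D _ U.𝓦 o _ _ _ _ S.s U.s G X.ok U.ok U.stp G.2
          ⟨⟨y, g1 y h1, h2⟩⟩
        obtain ⟨q, hq⟩ := hF _ _ 1 _ _ _ (rc G.2) _ _ h2
        obtain ⟨q', hq'⟩ := hF _ _ 1 _ _ _ (rc G.2) _ _ z.2.2
        exact h ⟨z, (hR.pol z.2.2 (U.adp _)).1.1 (hD X.lam hq hq' (hB.le S _ _) (g0 _)
          (hB.ne S _ _).2 ((hR.pol h2 (hB.adp S _)).1.2 h1)).1, z.2.2⟩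
      rw [filter_false_of_mem fun z _ => not_exists.1 h z]
      exact ⟨rfl, 0, by simp, fun y hy q hq => (k y hy hq.on).elim⟩
  choose h1 R h2 h3 using H
  choose γ hγ using fun y : {y // S.Pl y} => (g3 y).1 y.2
  have h4 : ∀ (G : {G // S.B.InvO G}) y, S.Pl y → S.On G y →
      (if h : S.Pl y then R (γ ⟨y, h⟩) y else 0) = R G y := fun G y h h' => by
    rw [dif_pos h, Subtype.ext (hR.uniq (hγ ⟨y, h⟩).2 h' : (γ ⟨y, h⟩).1 = G.1)]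
  refine ⟨U.ψ, fun y => if h : S.Pl y then R (γ ⟨y, h⟩) y else 0, U.gd, ?_,
    fun y h G hG' q hq => (h4 ⟨G, hG'⟩ y h hq.on).symm ▸ h3 ⟨G, hG'⟩ y h q hq⟩
  have h7 : Function.Injective fun z : {z // U.Pl z} => z.1.1 := by
    rintro ⟨⟨x, l⟩, hz⟩ ⟨⟨x', l'⟩, hz'⟩ (rfl : x = x')
    obtain ⟨G, -, h5⟩ := (g2 _).1 hz
    by_contra h6
    obtain ⟨m, rfl⟩ := Fin.exists_succAbove_eq (x := l') (y := l) fun e => h6 (by subst e; rfl)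
    exact hN S _ _ G.2 _ _ _ h5 (U.adp x) hz m hz'
  obtain ⟨e, he⟩ := ct (X := {z // U.Pl z}) (c := cT X.T) (c' := cT X.T) (k := k0) (k' := k1)
    U.d U.d (fun z => z.1.1) (fun z => z.1.2) h7 (fun _ => rfl) (fun _ _ => rfl)
    (fun b i => ⟨fun h => ⟨⟨(b, i), h⟩, rfl, rfl⟩, fun ⟨z, e, e'⟩ => e ▸ e' ▸ z.2⟩)
    (fun z => ⟨(U.nz _ _ z.2).1, (U.nz _ _ z.2).2.1⟩)
    ((sum_subtype (univ.filter U.Pl) (by simp) U.pt).symm.trans (cls _ g2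
      (fun G G' y h h' => Subtype.ext (hR.uniq h.2 h'.2)) h1)) U.z1
  refine ⟨e, he.cast rfl U.e0.symm (congrArg _ ?_) rfl⟩
  exact (sum_subtype (univ.filter U.Pl) (by simp) U.ct).symm.trans (cls2 _ _ g2
    (fun G G' y h h' => Subtype.ext (hR.uniq h.2 h'.2)) g3
    (fun G G' y h h' => Subtype.ext (hR.uniq h.2 h'.2)) fun G => (h2 G).trans
      (sum_congr rfl fun y hy => (h4 G y (mem_filter.1 hy).2.1 (mem_filter.1 hy).2.2).symm))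

end Pool.Agent.MP_ee8c61_ag.N3.BK.P3D
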