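import Pool.Agent.MP_5d9b3c_ag.P3D.Br
import Pool.Agent.MP_5d9b3c_ag.O3.Defs
import Pool.Agent.MP_ee8c61_ag.N3BK.XDefs

/-!
Boxes of fixed points: the `p`-adic box on the fixed field together with the complex points.
-/

namespace Pool.Agent.MP_ee8c61_ag.N3.BK.P3D

open Pool.Agent.MP_5d9b3c_ag Pool.Agent.MP_5d9b3c_ag.P3D

set_option linter.unusedSectionVars false

variable [Base]

open M3 M3RESID M3BK P3 P3K P3T Set
open Pool.Agent.MP_96693b_ag.RS (Loc)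

noncomputable section

/-- Invariant generators of the base; the region is the set where their values are integral. -/
class Rgn (p : ℕ) [Fact p.Prime] [Algebra ℚ_[p] ℂ] where
  fb : FB ℚ_[p]
  τ : Type
  fτ : Fintype τ
  t : τ → (AK p).fix
  ov : ∀ V : Vl 3, Ov V ↔ (∀ c, algebraMap ℂ (KK 3) c ∈ V) ∧ ∀ i, (t i : KK 3) ∈ V

attribute [instance] Rgn.fb Rgn.fτ

variable {p : ℕ} [Fact p.Prime] [Algebra ℚ_[p] ℂ] [Rgn p]

variable (p) in
/-- The generators of the region. -/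
def tK (i : Rgn.τ p) : (AK p).fix := Rgn.t i

theorem ov_tK {V : Vl 3} : Ov V ↔ (∀ c, algebraMap ℂ (KK 3) c ∈ V) ∧ ∀ i, (tK p i : KK 3) ∈ V :=
  Rgn.ov V

variable (p) in
/-- The generators as elements of the base ring. -/
def tP (i : Rgn.τ p) : Po 3 := ⟨tK p i, mem_Rb.2 fun _ h => (ov_tK.1 h).2 i⟩

theorem ip_tP (i : Rgn.τ p) : ip 3 (tP p i) = tK p i := rfl

theorem tK_mem {M : Mod 3} {f : Po 3} (h : M.OK f) (a : M.ι) (i : Rgn.τ p) :
    (tK p i : KK 3) ∈ M.S.A a := h.pol a (tP p i)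

variable [Algebra.IsAlgebraic ℚ_[p] ℂ]

/-- A finite family of boxes that covers the integral fixed points of the model `M` of `f`. -/
structure Fam (M : Mod 3) (f : (AK p).fix) where
  ι : Type
  fι : Fintype ι
  c : ι → CBox (AK p) 3
  lab : ι → Fin 3 → Option M.J
  inj : ∀ b i i' j, lab b i = some j → lab b i' = some j → i = i'
  pt : ∀ b, ∃ a, ∀ t ∈ Bl p 3, MP_96693b_ag.RS.LocOf (M.S.A a) ((c b).Q t)
  inv : ∀ b i j, lab b i = some j → (AK p).InvO (M.v j)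
  dat : ∀ b i j, lab b i = some j → (c b).On (M.v j) i
  on : ∀ b, ∀ t ∈ Bl p 3, ∀ j, M.On ((c b).Q t) j ↔ ∃ i, lab b i = some j ∧ t i = 0
  mf : ∀ b, ∃ α, (c b).b.Mono f α fun i => (lab b i).elim 0 M.aa
  mj : ∀ b, ∃ α, (c b).b.Mono ((c b).b.jac (xK p)) α fun i => (lab b i).elim 0 M.kk
  dis : Dis fun b => (c b).b
  itg : Itg (fun b => (c b).b) (range (tK p))
  all : ∀ Q ∈ M.pts, (AK p).FixL Q →
    (∀ l, ∃ a : ℚ_[p], ‖a‖ ≤ 1 ∧ Q.ev (tK p l) = algebraMap ℚ_[p] ℂ a) →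
    ∃ b, ∃ t ∈ Bl p 3, (c b).Q t = Q
  crv : ∀ b i (m : Fin 2), lab b i ≠ none → lab b (i.succAbove m) ≠ none →
    ∀ (k : Type) [Field k] [Algebra ℂ k] (B : GA ℚ_[p] k) (P : Pl (KK 3) k)
      (h : (AK p).Cpt B P) (g : CBox B 2), CFace (c b) h i g → ∃ G, B.InvO G ∧ g.On G m

attribute [instance] Fam.fι

end

end Pool.Agent.MP_ee8c61_ag.N3.BK.P3D
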