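import Pool.Agent.MP_5d9b3c_ag.P3D.SpecX
import Pool.Agent.MP_5d9b3c_ag.O3D.Br

/-!
Boxes on stable models: the statements.
-/

namespace Pool.Agent.MP_ee8c61_ag.N3.BK.P3D

open Pool.Agent.MP_5d9b3c_ag Pool.Agent.MP_5d9b3c_ag.P3D

set_option linter.unusedSectionVars false

variable [Base]

open M3 M3RESID M3BK P3 P3K P3T Set
open Pool.Agent.MP_96693b_ag.RS (Loc)

noncomputable section

variable (p : ℕ) [Fact p.Prime] [Algebra ℚ_[p] ℂ] [Rgn p]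

/-- The set of closed points is stable. -/
def Stp (M : Mod 3) : Prop := ∀ σ, ∀ Q ∈ M.pts, ((AK p).si σ).loc Q ∈ M.pts

variable {p} [Algebra.IsAlgebraic ℚ_[p] ℂ]

namespace Fam

open Pool.Agent.MP_5d9b3c_ag.P3D.Fam

variable {M : Mod 3} {f : (AK p).fix} (𝓑 : Fam M f)

/-- The faces along the divisor `o`. -/
abbrev F1 (o : M.J) : Type := {x : 𝓑.ι × Fin 3 // 𝓑.lab x.1 x.2 = some o}

variable {k : Type} [Field k] [Algebra ℂ k] {B : GA ℚ_[p] k} {P : Pl (KK 3) k}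

/-- A choice of the faces along the divisor `o`. -/
structure Fc (o : M.J) (h : (AK p).Cpt B P) where
  po : P.o = M.v o
  g : 𝓑.F1 o → CBox B 2
  fc : ∀ x, CFace (𝓑.c x.1.1) h x.1.2 (g x)

variable {𝓑} {o : M.J} {h : (AK p).Cpt B P} (s : 𝓑.Fc o h)

/-- The label of the second coordinate. -/
def Fc.lb (_ : 𝓑.Fc o h) (x : 𝓑.F1 o × Fin 2) : Option M.J :=
  𝓑.lab x.1.1.1 (x.1.1.2.succAbove x.2)

/-- The double faces along the curve `G`. -/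
abbrev Fc.F2 (G : DV k) : Type := {x : 𝓑.F1 o × Fin 2 // s.lb x ≠ none ∧ (s.g x.1).On G x.2}

variable (𝓑)

/-- There are dominating families on whose faces given functions are monomial. -/
def Up (f₀ : Po 3) : Prop := ∀ (o : M.J) (k : Type) [Field k] [Algebra ℂ k] (B : GA ℚ_[p] k)
  (P : Pl (KK 3) k) (h : (AK p).Cpt B P) (T : Finset B.fix), P.o = M.v o → 0 ∉ T →
  ∃ (W : Mod 3) (D : Dom W M) (𝓦 : Fam W f) (bx : 𝓦.ι → 𝓑.ι), W.OK f₀ ∧ Stp p W ∧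
    (∀ β, (𝓦.c β).b.Over (𝓑.c (bx β)).b) ∧
    (∀ β i, 𝓑.lab (bx β) i ≠ none → ∃ m A, (𝓦.c β).b.Mono ((𝓑.c (bx β)).b.z i) m A) ∧
    ∀ β i g, 𝓦.lab β i = some (D.e o) → CFace (𝓦.c β) h i g →
      ∀ t ∈ T, (∃ m A, g.b.Mono t m A) ∧ (g.b.Reg t ∨ g.b.Reg t⁻¹)

end Fam

/-- The coordinate functions on a divisor. -/
def x1 {k : Type} [Field k] [Algebra ℂ k] {B : GA ℚ_[p] k} {P : Pl (KK 3) k}
    (h : (AK p).Cpt B P) : Set B.fix := range fun l => pf h (tK p l)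

/-- The coordinate functions on a curve. -/
def x2 {k κ : Type} [Field k] [Algebra ℂ k] [Field κ] [Algebra ℂ κ] {B : GA ℚ_[p] k}
    {P : Pl (KK 3) k} (h : (AK p).Cpt B P) {E : GA ℚ_[p] κ} {R : Pl k κ} (h2 : B.Cpt E R) :
    Set E.fix := range fun l => pf h2 (pf h (tK p l))

variable (p)

/-- The boxes. -/
def SCOV0 : Prop := ∀ (f₀ : Po 3) (f : (AK p).fix) (M : Mod 3) (𝓑 : Fam M f), M.OK f₀ → Stp p M →
  Full (fun b => (𝓑.c b).b) (range (tK p))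

/-- The faces. -/
def SCOV1 : Prop := ∀ (f₀ : Po 3) (f : (AK p).fix) (M : Mod 3) (𝓑 : Fam M f) (o : M.J) (k : Type)
  [Field k] [Algebra ℂ k] (B : GA ℚ_[p] k) (P : Pl (KK 3) k) (h : (AK p).Cpt B P) (s : 𝓑.Fc o h),
  M.OK f₀ → Stp p M → Sp0 (fun x => (s.g x).b) ∧ Full (fun x => (s.g x).b) (x1 h)

/-- The double faces. If one of them has the label `o'`, those with the label `o'` cover. -/
def SCOV2 : Prop := ∀ (f₀ : Po 3) (f : (AK p).fix) (M : Mod 3) (𝓑 : Fam M f) (o : M.J)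
  (k κ : Type) [Field k] [Algebra ℂ k] [Field κ] [Algebra ℂ κ] (B : GA ℚ_[p] k) (P : Pl (KK 3) k)
  (h : (AK p).Cpt B P) (s : 𝓑.Fc o h) (E : GA ℚ_[p] κ) (R : Pl k κ) (h2 : B.Cpt E R)
  (c : s.F2 R.o → CBox E 1), M.OK f₀ → Stp p M → (∀ x, CFace (s.g x.1.1) h2 x.1.2 (c x)) →
  Sp0 (fun x => (c x).b) ∧ Itg (fun x => (c x).b) (x2 h h2) ∧ ∀ x₀ : s.F2 R.o,
    Cov (fun x : {x : s.F2 R.o // s.lb x.1 = s.lb x₀.1} => (c x.1).b) (x2 h h2)

/-- The strict transform of a double curve is met by a box. -/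
def SFLAG : Prop := ∀ (f₀ : Po 3) (f : (AK p).fix) (M W : Mod 3) (D : Dom W M) (𝓑 : Fam M f)
  (𝓦 : Fam W f) (o : M.J) (k : Type) [Field k] [Algebra ℂ k] (B : GA ℚ_[p] k) (P : Pl (KK 3) k)
  (h : (AK p).Cpt B P) (s : 𝓑.Fc o h) (s' : 𝓦.Fc (D.e o) h) (G : DV k), M.OK f₀ → W.OK f₀ →
  Stp p W → B.InvO G → Nonempty (s.F2 G) → Nonempty (s'.F2 G)

/-- What the chief has to supply: a family of boxes with dominating families. -/
def HasFam (f₀ : Po 3) (f : (AK p).fix) (M : Mod 3) : Prop :=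
  Stp p M ∧ ∃ 𝓑 : Fam M f, 𝓑.Up f₀

end

end Pool.Agent.MP_ee8c61_ag.N3.BK.P3D
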