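import Pool.Agent.MP_5d9b3c_ag.O3D.Spec
import Pool.Agent.MP_5d9b3c_ag.O3X.CovS
import Pool.Agent.MP_5d9b3c_ag.P3D.RPTSg
import Pool.Agent.MP_ee8c61_ag.N3BK.RPt
import Pool.Agent.MP_ee8c61_ag.N3BK.RSurf
import Pool.Agent.MP_ee8c61_ag.N3BK.RAd

/-! The points of a face are good. -/

namespace Pool.Agent.MP_ee8c61_ag.N3.BK.P3D

open Pool.Agent.MP_5d9b3c_ag Pool.Agent.MP_5d9b3c_ag.P3D

set_option linter.unusedSectionVars false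

variable [Base]

open M3 M3RESID M3BK P3 P3K P3T Set
open Pool.Agent.MP_96693b_ag.RS (Loc)
open Pool.Agent.MP_96693b_ag

variable (p : ℕ) [Fact p.Prime] [Algebra ℚ_[p] ℂ] [Rgn p] [Algebra.IsAlgebraic ℚ_[p] ℂ]

theorem rGP (hB : SBAS p) {X : Ctx p} {o : X.M.J} (S : ES X o) (x : X.𝓑.F1 o) :
    ∀ t ∈ Bl p 2, ∃ (C : Co S.k 2) (a : Fin 2 → ℂ) (m : Fin 2 → ℤ),
      GP S.e (S.δ x).u C ((S.s.g x).Q t) a m ∧
        ∃ u ∈ S.e.Ex, ∃ c, S.v - u ∈ C.F ((S.s.g x).Q t).O c := by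
  intro t ht
  obtain ⟨C, lab, hP⟩ := rPt X.eo X.f₀ X.M X.hyp.ne X.ok
  obtain ⟨T, rs, hT⟩ := rSurf X.eo X.con X.f₀ X.M C lab o _ (X.M.v o).pl X.ok hP rfl
  obtain ⟨h1, h2⟩ := rAd _ _ _ _ _ _ _ _ _ _ _ T rs S.e S.v X.hyp X.ok hP hT (hB.ex X o S.pol)
    S.sta.rd
  have ht' := ins_Bl x.1.2 ht
  have hQ := X.𝓑.mem_pts x.1.1 ht'
  have h0 : (x.1.2.insertNth 0 t : Fin 3 → ℚ_[p]) x.1.2 = 0 := by simp
  have hO := (X.𝓑.on x.1.1 _ ht' o).2 ⟨x.1.2, x.2, h0⟩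
  have hr := (S.s.fc x).pr ht
  have hd := (S.s.fc x).on _ ht' h0
  have hz := ((X.𝓑.c x.1.1).rg _ ht').st.z x.1.2
  have hv := hd.div
  rw [sh_z _ h0] at hz hv
  have e := hr.uniq ⟨hr.1, hT.O _ hQ hO⟩
  have hx : (S.s.g x).Q t ∈ T.X := e ▸ hT.X ▸ mem_image_of_mem rs ⟨hQ, hO⟩
  obtain ⟨i, hi⟩ := ((hP _ hQ).on o).1 hO
  have h3 := (hP _ hQ).dat i o hi
  have h4 := (hP _ hQ).rg.st.z i
  have h5 := RGP.mn hr (hT.crd _ hQ i hi).1 h3 (hB.cu S x).1 hz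
    (hv _ h4 (Or.inr h3.adp.vz.ge)) (a := X.M.a o) (by rw [hi]; rfl) (hP _ hQ).fm
  rw [← (hB.cu S x).2, ← e] at h5
  exact ⟨T.C _, _, _, ⟨T.rg _ hx, h1 _ hx, h5⟩, h2 S.sta.rs _ hx⟩

theorem rPts : OfPTS p := fun hB => ⟨fun {X o} S x x' t ht t' ht' V h1 h2 => by
  obtain rfl := S.s.sepV (X.eo.bas 3 _ _ X.ok) ht ht' h1 h2
  refine ⟨rfl, funext fun i => by_contra fun hn => ?_⟩
  have a1 := (S.s.g x).rg t ht
  have a2 := (S.s.g x).rg t' ht'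
  refine h1.2 _ (a1.st.z i) (a1.ev i) (RSurf.un_of_ev h2 ?_)
  have e : (sh (S.s.g x).C (up t)).z i =
      (sh (S.s.g x).C (up t')).z i + algebraMap ℂ _ (up t' i - up t i) := by simp [sh]
  rw [e, Loc.ev_add _ _ (a2.st.z i) _ (Subalgebra.algebraMap_mem _ _), a2.ev, Loc.ev_alg, zero_add]
  exact sub_ne_zero.2 fun h => hn ((algebraMap ℚ_[p] ℂ).injective h).symm, rGP p hB⟩

end Pool.Agent.MP_ee8c61_ag.N3.BK.P3D
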