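import Pool.Agent.MP_5d9b3c_ag.O3D.Kit
import Pool.Agent.MP_5d9b3c_ag.P3D.RUps

/-! The faces of a dominating family. -/

namespace Pool.Agent.MP_ee8c61_ag.N3.BK.P3D

open Pool.Agent.MP_5d9b3c_ag Pool.Agent.MP_5d9b3c_ag.P3D

export Pool.Agent.MP_5d9b3c_ag.P3D (kk)

set_option linter.unusedSectionVars false

variable [Base]

open M3 M3RESID M3BK P3 P3K P3T Set

variable (p : ℕ) [Fact p.Prime] [Algebra ℚ_[p] ℂ] [Rgn p] [Algebra.IsAlgebraic ℚ_[p] ℂ]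

theorem rUPS : OfUPS p := by
  classical
  rintro hF hD hC hP h0 hR - hB hM X o S ⟨x₀⟩
  obtain ⟨a, m, τ, a1, a2, a3, a4, a5⟩ := hM S x₀
  choose ε hε using fun x => a4.trans (hB.le S x₀ x)
  obtain ⟨W, D, 𝓦, bx, w1, w2, w3, w4, w5⟩ := X.up o _ S.B _ (rc S.inv)
    (Finset.univ.image a ∪ (Finset.univ.image ε ∪ Finset.univ.image fun x => (S.δ x).j)) S.s.po
    (by
      simp only [Finset.mem_union, Finset.mem_image, Finset.mem_univ, true_and, not_or, not_exists]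
      exact ⟨fun l => (a1 l).1, fun x => (hε x).ne,
        fun x => left_ne_zero_of_mul (hB.ne S x (S.s.g x).b).2⟩)
  choose g hg using fun x : 𝓦.F1 (D.e o) => hF _ _ 2 _ _ _ (rc S.inv) (𝓦.c x.1.1) x.1.2
    ((D.v o).subst (motive := fun v => (𝓦.c x.1.1).On v x.1.2) (𝓦.dat _ _ _ x.2))
  let s : 𝓦.Fc (D.e o) (rc S.inv) := ⟨(D.v o).symm, g, hg⟩
  have hi : ∀ x : 𝓦.F1 (D.e o), ∃ i, X.𝓑.lab (bx x.1.1) i = some o := fun x => by
    obtain ⟨t, ht, e⟩ := w3 x.1.1 0 zero_bl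
    refine ((X.𝓑.on _ t ht o).1 fun y hy => ?_).imp fun _ k => k.1
    exact D.v o ▸ (𝓦.on _ 0 zero_bl _).2 ⟨_, x.2, rfl⟩ y (hD _ _ _ _ _ t ht 0 zero_bl e hy)
  choose i₀ hi using hi
  let π : 𝓦.F1 (D.e o) → X.𝓑.F1 o := fun x => ⟨(bx x.1.1, i₀ x), hi x⟩
  have ov : ∀ x, (g x).b.Over (S.s.g (π x)).b := fun x =>
    (hg x).fc.over (S.s.fc (π x)).fc (w3 _)
  have hT := fun x : 𝓦.F1 (D.e o) => w5 _ _ _ x.2 (hg x)
  choose! μ A hA using w4
  have hz := fun x : 𝓦.F1 (D.e o) => hA x.1.1 (i₀ x) (by simp [hi x])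
  have f1 := (hC _ _ _ _ _ _ _ _ _ s w1 w2).2
  have f2 := (hC _ _ _ _ _ _ _ _ _ S.s X.ok X.stp).2
  obtain ⟨e, d, d1, d2⟩ := h0 (b := fun x => (g x).b) (δ := fun x => S.δ (π x)) X.lam f1 a3
    (fun l => (a1 l).2) a2 (fun x l => hT x _ (by simp)) (fun x => hε _)
    (fun x => (hT x _ (by simp)).1) fun x => by
      obtain ⟨_, _, k1⟩ := (hT x (S.δ (π x)).j (by simp)).1
      obtain ⟨_, k2⟩ := 𝓦.mj x.1.1
      obtain ⟨_, k3⟩ := X.𝓑.mj (bx x.1.1)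
      have k4 := k2.div (k3.over (w3 _) fun l hl => hA _ l fun e => hl (by simp [e]))
      rw [Box.jac_chain _ (X.𝓑.c (bx x.1.1)).b, mul_div_cancel_right₀ _ k3.ne] at k4
      obtain ⟨_, _, k5⟩ := jac_face (hg x).fc (S.s.fc (π x)).fc k4 (hz x)
        (right_ne_zero_of_mul (hB.ne S (π x) (g x).b).2)
      exact ⟨_, _, k1.mul k5⟩
  have key := fun x => hP (b := fun y : {y // π y = x} => (g y).b) (d := fun y => d y)
    (θ := fun _ => ∏ l, a l ^ e l) (T := X.T) (hB.adp S x) (hB.reg S x).1 (hB.reg S x).2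
    (fun ⟨y, e⟩ => e ▸ ov y)
    (rFIB _ _ π (f2.eqv f1).1 f2.dis ov x) (f1.dis.comp Subtype.val_injective)
    fun ⟨y, e⟩ => e ▸ (d1 y).1
  refine ⟨⟨W, D, 𝓦, w1, w2, s, π, ov, _, a5 e, d, fun x => (d1 x).1, fun x l h => ?_, d2, ?_⟩⟩
  · have k0 := (key _).2 ⟨x, rfl⟩ l h
    refine ⟨k0, (d1 x).2 l h, fun hl => k0 ?_⟩
    obtain ⟨_, k1⟩ := 𝓦.mf x.1.1
    have k2 := (hB.ne S (π x) (g x).b).1
    have k3 := ((mono_face (hg x).fc (k1.div ((hz x).zpow _))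
      (by_contra fun e => k2 (dif_neg e)) k2).uniq ((d1 x).1.fn 0)).2
    have k4 := ((d1 x).1.fn 0).nonneg ((hB.reg S _).1.over (ov x)) l
    have k5 := (hz x).nonneg (Box.Reg.over (fun t ht => Box.zm _ t ht _) (w3 _))
      (x.1.2.succAbove l)
    have k6 : 0 ≤ (X.M.v o).v X.f := by
      rw [show (X.M.v o).v X.f = _ from hR.ord (hg x).on k1, x.2]
      exact Int.natCast_nonneg _
    have k7 := congrFun k3 l
    simp only [Pi.sub_apply, Pi.smul_apply, smul_eq_mul, show 𝓦.lab _ _ = none from hl,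
      Option.elim_none, zero_sub] at k7
    have k8 := mul_nonneg k6 k5
    simp only [kk, Fin.sum_univ_two, Matrix.cons_val_zero, Matrix.cons_val_one, one_mul, zero_mul,
      add_zero]
    exact le_antisymm (k7 ▸ neg_nonpos.2 k8) k4
  · rw [← Fintype.sum_fiberwise π]
    exact Finset.sum_congr rfl fun x _ => (key x).1

end Pool.Agent.MP_ee8c61_ag.N3.BK.P3D
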