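import Pool.Agent.MP_5d9b3c_ag.O3D.Flag
import Pool.Agent.MP_5d9b3c_ag.O3D.RBKP
import Pool.Agent.MP_5d9b3c_ag.O3D.RBas
import Pool.Agent.MP_5d9b3c_ag.O3D.RCLA
import Pool.Agent.MP_5d9b3c_ag.O3D.RCurB
import Pool.Agent.MP_5d9b3c_ag.O3D.RDIC
import Pool.Agent.MP_5d9b3c_ag.O3D.RFRM
import Pool.Agent.MP_5d9b3c_ag.O3D.RGEX
import Pool.Agent.MP_5d9b3c_ag.O3D.RGFL
import Pool.Agent.MP_5d9b3c_ag.O3D.RGlue
import Pool.Agent.MP_5d9b3c_ag.O3D.RHJ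
import Pool.Agent.MP_5d9b3c_ag.O3D.RNp
import Pool.Agent.MP_5d9b3c_ag.O3D.ROF
import Pool.Agent.MP_5d9b3c_ag.O3D.ROUT
import Pool.Agent.MP_5d9b3c_ag.O3D.RPTSg
import Pool.Agent.MP_5d9b3c_ag.O3D.RUps
import Pool.Agent.MP_5d9b3c_ag.O3X.Cov
import Pool.Agent.MP_5d9b3c_ag.P3D.RJV
import Pool.Agent.MP_5d9b3c_ag.P3D.RPV2
import Pool.Agent.MP_5d9b3c_ag.P3D.RRES
import Pool.Agent.MP_5d9b3c_ag.P3D.RSF0
import Pool.Agent.MP_5d9b3c_ag.P3X.Face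

/-! The cancellation of the pole from the cross function. -/

namespace Pool.Agent.MP_ee8c61_ag.N3.BK.P3D

open Pool.Agent.MP_5d9b3c_ag Pool.Agent.MP_5d9b3c_ag.P3D

variable [Base] (p : ℕ) [Fact p.Prime] [Algebra ℚ_[p] ℂ] [Rgn p] [Algebra.IsAlgebraic ℚ_[p] ℂ]

theorem sbk_rows (E : M3E.EOut) (hO : M3.SCON) (h2 : OfCRS p) : SBK p :=
  have F : SFACE p := sFACE p
  have D : SDOMC p := sDOMC p
  have C2 : SCOV2 p := sCOV2 p E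
  have Jv : SJV p := rJV p
  have Cv : SCV p := rCV p
  have Re : SRES p := rRES p
  have Rs : SRSD p := rRSD p
  have Of : SOF p := rOF p
  have Ba : SBAS p := rBAS p Re Rs Of
  have Pt : SPTS p := rPts p Ba
  have Cu : SCUR p := rCURb p Of Ba Pt
  have Np : SNP2 p := rNp p F Cv Re Cu
  have Cl : SCLA p := rCLA p F C2 Jv Cv Re Rs Ba Cu
  sbk_of p E hO (rBKP p F Re Ba Np Cl
    (rOUT p F (rFlag E p) Re Rs Of Ba Np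
      (rUPS p F D (sCOV1 p E) (rPV2 p) (rSF0 p) Re Rs Ba (rFRM p Ba)) (rDIC p D Re Of Ba Pt)
      (rGEX p F C2 Jv Cv Re Rs Ba Cu) (rGFL p F C2 Jv Cv Re Rs Ba Cu Cl))
    (rHJ p F C2 Jv Cv Re Rs Ba Cu (h2 Re Ba)))

end Pool.Agent.MP_ee8c61_ag.N3.BK.P3D
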