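import Pool.Agent.MP_5d9b3c_ag.P3D.Spec
import Pool.Agent.MP_5d9b3c_ag.O3D.Defs

/-!
The cancellation of the pole: the statements. Every `OfX` is one task.
-/

namespace Pool.Agent.MP_ee8c61_ag.N3.BK.P3D

open Pool.Agent.MP_5d9b3c_ag Pool.Agent.MP_5d9b3c_ag.P3D

set_option linter.unusedSectionVars false

variable [Base]

open M3 M3RESID M3BK P3 P3K P3T P3B Set
open H59 (PX)

noncomputable section

section F

variable (p : ℕ) [Fact p.Prime]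

end F

variable (p : ℕ) [Fact p.Prime] [Algebra ℚ_[p] ℂ] [Rgn p] [Algebra.IsAlgebraic ℚ_[p] ℂ]

open Classical in
/-- The divergence of a density. -/
structure SOF : Prop where
  top : ∀ (f₀ : Po 3) (f : (AK p).fix) (la : ℚ), (f : KK 3) = ip 3 f₀ → (dn3 f).Of la (dvf f₀ la)
  res : ∀ {L k : Type} [Field L] [Algebra ℂ L] [Field k] [Algebra ℂ k] {n : ℕ} {A : GA ℚ_[p] L}
    {B : GA ℚ_[p] k} {P : Pl L k} {h : A.Cpt B P} {c : CBox A (n + 1)} {i : Fin (n + 1)}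
    {f : CBox B n} {δ : Dn A.fix (n + 1)} {T : ℂˣ} {la : ℚ} {d : Dv L} {e : Dv k},
    ‖(T : ℂ)‖ = (p : ℝ) ^ (la : ℝ) → CFace c h i f → δ.u ≠ 0 → δ.w c.b ≠ 0 → δ.Pol T c P.o →
    δ.Of la d → P.RsD d e → (δ.rs c h i).Of la e
  exp : ∀ {L : Type} [Field L] [Algebra ℂ L] {n : ℕ} {A : GA ℚ_[p] L} {c : CBox A n} {o : DV L}
    {i : Fin n} {δ : Dn A.fix n} {T : ℂˣ} {la : ℚ} {e : Dv L}, ‖(T : ℂ)‖ = (p : ℝ) ^ (la : ℝ) →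
    c.On o i → δ.u ≠ 0 → δ.w c.b ≠ 0 → δ.Pol T c o → δ.Of la e → Exp e o 0
  ad : ∀ {L : Type} [Field L] [Algebra ℂ L] {n : ℕ} {A : GA ℚ_[p] L} {c : CBox A n}
    {δ : Dn A.fix n} {θ : A.fix} {d : MD (Fin 2) n} {la : ℚ} {e : Dv L}, δ.Adp c.b θ d →
    δ.Of la e → ∀ t ∈ Bl p n, (sh c.C (up t)).Ad (c.Q t).O e
      fun l => if t l = 0 then (d.ν l : ℂ) - la * d.A 0 l else 1

/-- The faces of a polar divisor. -/
structure SBAS : Prop where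
  of : ∀ {X : Ctx p} {o : X.M.J} (S : ES X o) x, (S.δ x).Of X.la S.e
  adp : ∀ {X : Ctx p} {o : X.M.J} (S : ES X o) x, (S.δ x).Adp (S.s.g x).b (S.δ x).u (S.d x)
  reg : ∀ {X : Ctx p} {o : X.M.J} (S : ES X o) x,
    (S.s.g x).b.Reg (S.δ x).u ∧ (S.s.g x).b.Reg ((S.δ x).w (S.s.g x).b)
  le : ∀ {X : Ctx p} {o : X.M.J} (S : ES X o) x x', (S.δ x).LE p X.N X.ν (S.δ x')
  ne : ∀ {X : Ctx p} {o : X.M.J} (S : ES X o) x (g : Box p S.B.fix 2),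
    (S.δ x).u ≠ 0 ∧ (S.δ x).w g ≠ 0
  cu : ∀ {X : Ctx p} {o : X.M.J} (S : ES X o) (x : X.𝓑.F1 o),
    (X.M.v o).v ((X.𝓑.c x.1.1).C.z x.1.2) = 1 ∧ ((S.δ x).u : S.k) =
      (X.M.v o).pl.π (ip 3 X.f₀ / (X.𝓑.c x.1.1).C.z x.1.2 ^ X.M.a o)
  pl : ∀ {X : Ctx p} {o : X.M.J} (S : ES X o) y, S.Pl y ↔ ∃ o', S.s.lb y = some o' ∧ X.Pol o'
  ex : ∀ (X : Ctx p) (o : X.M.J), X.Pol o → X.M.ex X.la o = 0
  lam : ∀ X : Ctx p, X.la * X.N = X.ν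

def OfBAS : Prop := SRES p → SRSD p → SOF p → SBAS p

/-- The points of a face are separated and good. -/
structure SPTS : Prop where
  sep : ∀ {X : Ctx p} {o : X.M.J} (S : ES X o) x x', ∀ t ∈ Bl p 2, ∀ t' ∈ Bl p 2, ∀ V,
    Dm ((S.s.g x).Q t) V → Le ((S.s.g x').Q t') V → x = x' ∧ t = t'
  gp : ∀ {X : Ctx p} {o : X.M.J} (S : ES X o) x, ∀ t ∈ Bl p 2, ∃ (C : Co S.k 2) (a : Fin 2 → ℂ)
    (m : Fin 2 → ℤ), GP S.e (S.δ x).u C ((S.s.g x).Q t) a m ∧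
      ∃ u ∈ S.e.Ex, ∃ c, S.v - u ∈ C.F ((S.s.g x).Q t).O c

def OfPTS : Prop := SBAS p → SPTS p

/-- The frame. -/
def SFRM : Prop := ∀ {X : Ctx p} {o : X.M.J} (S : ES X o) (x : X.𝓑.F1 o),
  ∃ (a : Fin 4 → S.B.fix) (m : Fin 4 → ℤ) (τ : S.B.fix ≃ₐ[ℚ_[p]] S.B.fix),
    (∀ l, a l ≠ 0 ∧ τ (a l) = (p : S.B.fix) ^ m l * a l) ∧ m 0 = 1 ∧
    (∀ c ∈ x1 (rc S.inv), τ c = c) ∧ Dn.LE p X.N X.ν ⟨a 2, a 3, ![a 0, a 1]⟩ (S.δ x) ∧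
    ∀ k : Fin 4 → ℤ, M3BK.Gd S.e S.v (∏ l, a l ^ k l : S.B.fix)

def OfFRM : Prop := SBAS p → SFRM p

/-- The type of a polar curve. -/
def SCUR : Prop := ∀ {X : Ctx p} {o : X.M.J} (S : ES X o) (x : X.𝓑.F1 o) (g : CBox S.B 2)
  {G : DV S.k} (hG : S.B.InvO G) (m : Fin 2) (q : CBox (rA hG) 1), CFace g (rc hG) m q →
  (S.δ x).Pol X.T g G → ∃ σ : (rA hG).fix, Good p X.T X.N X.ν ((S.δ x).rs g (rc hG) m) σ ∧
    (∃ θ μ, Eu S.e S.v X.b0 G σ θ μ) ∧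
    x2 (rc S.inv) (rc hG) ⊆ range (algebraMap ℚ_[p] (rA hG).fix) ∧
    ∀ ψ : S.B.fix, M3BK.Gd S.e S.v ψ → ∀ t ∈ Bl p 2, Dm ((S.s.g x).Q t) G.O →
      Nul p X.T X.N X.ν ((S.δ x).rs g (rc hG) m) (S.th hG ψ x)

def OfCUR : Prop := SOF p → SBAS p → SPTS p → SCUR p

/-- Two polar curves do not meet. -/
def SNP2 : Prop := ∀ {X : Ctx p} {o : X.M.J} (S : ES X o) (x : X.𝓑.F1 o) (g : CBox S.B 2)
  {G : DV S.k} (_ : S.B.InvO G) (m : Fin 2) (θ : S.B.fix) (d : MD (Fin 2) 2), g.On G m →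
  (S.δ x).Adp g.b θ d → rho d p (cT X.T) m = 1 → ∀ l, rho (face d m) p (cT X.T) l ≠ 1

def OfNP2 : Prop := SFACE p → SCV p → SRES p → SCUR p → SNP2 p

def SUPS : Prop := ∀ {X : Ctx p} {o : X.M.J} (S : ES X o), Nonempty (X.𝓑.F1 o) → Nonempty S.Ups

def OfUPS : Prop := SFACE p → SDOMC p → SCOV1 p → SPV2 p → SSF0 p → SRES p → SRSD p → SBAS p →
  SFRM p → SUPS p

/-- A polar curve is exceptional or a double curve. -/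
def SDIC : Prop := ∀ {X : Ctx p} {o : X.M.J} {S : ES X o} (U : S.Ups) (G : DV S.k),
  Exp S.e G 0 → ((∀ y, S.s.lb y ≠ none → ¬S.On G y) ∧ ∀ z z', U.On G z → U.On G z' →
      U.π z.1 = U.π z'.1 ∧ ∃ t ∈ Bl p 2, Dm ((S.s.g (U.π z.1)).Q t) G.O) ∨
    ∀ z, U.On G z → ∃ m, S.s.lb (U.π z.1, m) ≠ none ∧ S.On G (U.π z.1, m)

def OfDIC : Prop := SDOMC p → SRES p → SOF p → SBAS p → SPTS p → SDIC p

open Classical in
/-- The mass of a polar double curve vanishes. -/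
def SCLA : Prop := ∀ {X : Ctx p} {o : X.M.J} (S : ES X o) (G : DV S.k) (_ : S.B.InvO G)
  (g : Option X.M.J → ℂ),
  ∑ y with S.Pl y ∧ S.On G y, v0 (face (S.d y.1) y.2) p (cT X.T) * g (S.s.lb y) = 0

def OfCLA : Prop := SFACE p → SCOV2 p → SJV p → SCV p → SRES p → SRSD p → SBAS p → SCUR p →
  SCLA p

open Classical in
/-- An exceptional curve. -/
def SGEX : Prop := ∀ {X : Ctx p} {o : X.M.J} {S : ES X o} (U : S.Ups) (G : DV S.k)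
  (_ : S.B.InvO G) (x : X.𝓑.F1 o), (∀ z, U.On G z → U.π z.1 = x) →
  (∃ t ∈ Bl p 2, Dm ((S.s.g x).Q t) G.O) →
  ∑ z with U.Pl z ∧ U.On G z, U.pt z = 0 ∧ ∑ z with U.Pl z ∧ U.On G z, U.ct z = 0

def OfGEX : Prop := SFACE p → SCOV2 p → SJV p → SCV p → SRES p → SRSD p → SBAS p → SCUR p →
  SGEX p

open Classical in
/-- A double curve. -/
def SGFL : Prop := ∀ {X : Ctx p} {o : X.M.J} {S : ES X o} (U : S.Ups) (G : DV S.k)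
  (hG : S.B.InvO G), (∃ z, U.Pl z ∧ U.On G z) →
  (∀ z, U.On G z → ∃ m, S.s.lb (U.π z.1, m) ≠ none ∧ S.On G (U.π z.1, m)) →
  ∑ z with U.Pl z ∧ U.On G z, U.pt z = 0 ∧ ∃ R : X.𝓑.F1 o × Fin 2 → ℂ,
    ∑ z with U.Pl z ∧ U.On G z, U.ct z = ∑ y with S.Pl y ∧ S.On G y, R y ∧
      ∀ y, S.Pl y → S.Crs hG U.ψ y (R y)

def OfGFL : Prop := SFACE p → SCOV2 p → SJV p → SCV p → SRES p → SRSD p → SBAS p → SCUR p →
  SCLA p → SGFL p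

def SOUT : Prop := ∀ {X : Ctx p} {o : X.M.J} (S : ES X o), Nonempty (X.𝓑.F1 o) → ∃ ψ R, S.Out ψ R

def OfOUT : Prop := SFACE p → SFLAG p → SRES p → SRSD p → SOF p → SBAS p → SNP2 p → SUPS p →
  SDIC p → SGEX p → SGFL p → SOUT p

/-- The cross function of a double curve. -/
def SCRS : Prop := ∀ {X : Ctx p} {o o' : X.M.J} (S : ES X o) (S' : ES X o') {G : DV S.k}
  (hG : S.B.InvO G) (ψ : S.B.fix) (ψ' : S'.B.fix) (σ : (rA hG).fix) θ μ y₀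
  (y₀' : X.𝓑.F1 o' × Fin 2),
  M3BK.Gd S.e S.v ψ → M3BK.Gd S'.e S'.v ψ' → Eu S.e S.v X.b0 G σ θ μ → Sw y₀ y₀' → S.On G y₀ →
  ∃ (G' : DV S'.k) (hG' : S'.B.InvO G') (ι : (rA hG').fix ≃ₐ[ℚ_[p]] (rA hG).fix) (c : ℚ_[p])
    (j : ℤ), c ≠ 0 ∧ ∀ y y', Sw y y' → S.On G y → S'.On G' y' ∧
      (S'.δ2 hG' y').map ι = S.δ2 hG y ∧
      S.th hG ψ y.1 ^ G'.v ψ' * ι (S'.th hG' ψ' y'.1) ^ G.v ψ *
        (S.δ2 hG y).u ^ (G.v ψ * G'.v ψ') = c • σ ^ j ∧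
      ∀ q q', CFace (S.s.g y.1) (rc hG) y.2 q → CFace (S'.s.g y'.1) (rc hG') y'.2 q' →
        q'.b.IsMap ι q.b

def OfCRS : Prop := SRES p → SBAS p → SCRS p

open Classical in
/-- The cross terms of a double curve cancel. -/
def SHJ : Prop := ∀ {X : Ctx p} {o o' : X.M.J} (S : ES X o) (S' : ES X o') ψ R ψ' R'
  (G : DV S.k) (_ : S.B.InvO G) (w : X.𝓑.F1 o × Fin 2 → ℂ), S.Out ψ R → S'.Out ψ' R' →
  (∀ y y', Sw y y' → w y = R y / X.M.aa o + R' y' / X.M.aa o' -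
    J (face (S'.d y'.1) y'.2) p (cT X.T) k1 / (X.M.aa o * X.M.aa o')) →
  ∑ y with S.s.lb y = some o' ∧ S.On G y, w y = 0

def OfHJ : Prop := SFACE p → SCOV2 p → SJV p → SCV p → SRES p → SRSD p → SBAS p → SCUR p →
  SCRS p → SHJ p

/-- No pole. -/
def SBKP : Prop := ∀ X : Ctx p,
  (∀ o (h : (AK p).InvO (X.M.v o)), X.M.ex X.la o = 0 → ∃ e v, X.Sta h e v) →
  Reg (∑ a, (X.d a).val p (chi (cT X.T) k1))

def OfBKP : Prop := SFACE p → SRES p → SBAS p → SNP2 p → SCLA p → SOUT p → SHJ p → SBKP p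

end

end Pool.Agent.MP_ee8c61_ag.N3.BK.P3D
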