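import Pool.Agent.MP_5d9b3c_ag.P3D.Kit
import Pool.Agent.MP_5d9b3c_ag.O3D.Spec

/-!
Small facts on densities and families.
-/

namespace Pool.Agent.MP_ee8c61_ag.N3.BK.P3D

open Pool.Agent.MP_5d9b3c_ag Pool.Agent.MP_5d9b3c_ag.P3D

set_option linter.unusedSectionVars false

variable [Base]

open M3 M3RESID M3BK P3 P3K P3T Set

section F

variable {p : ℕ} [Fact p.Prime] {L k : Type} [Field L] [Algebra ℚ_[p] L] [Field k]
  [Algebra ℚ_[p] k] {n : ℕ} {N ν : ℤ} {ε ε' : L} {δ δ' δ'' : Dn L n} {T : ℂˣ}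

variable {ι ι' : Type} {b : ι → Box p L n} {X : Set L}

end F

/-- The same double face, seen from the other divisor, exists. -/
theorem exists_sw {p : ℕ} [Fact p.Prime] [Algebra ℚ_[p] ℂ] [Rgn p] [Algebra.IsAlgebraic ℚ_[p] ℂ]
    {X : Ctx p} {o o' : X.M.J} (y : X.𝓑.F1 o × Fin 2)
    (h : X.𝓑.lab y.1.1.1 (y.1.1.2.succAbove y.2) = some o') :
    ∃ y' : X.𝓑.F1 o' × Fin 2, Sw y y' := by
  obtain ⟨m, hm⟩ := Fin.exists_succAbove_eq (Fin.succAbove_ne y.1.1.2 y.2).symm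
  exact ⟨(⟨(y.1.1.1, y.1.1.2.succAbove y.2), h⟩, m), rfl, rfl, hm.symm⟩

end Pool.Agent.MP_ee8c61_ag.N3.BK.P3D
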