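import Pool.Agent.MP_5d9b3c_ag.O3B.XCr
import Pool.Agent.MP_5d9b3c_ag.O3D.Spec
import Pool.Agent.MP_5d9b3c_ag.O3D.Kit
import Pool.Agent.MP_5d9b3c_ag.P3D.RCrsB
import Pool.Agent.MP_5d9b3c_ag.P3D.RRES
import Pool.Agent.MP_5d9b3c_ag.P3D.Tw
import Pool.Agent.MP_5d9b3c_ag.P3K.Cmp
import Pool.Agent.MP_ee8c61_ag.N3BK.RPt

/-!
The cross function of a double curve.
-/

namespace Pool.Agent.MP_ee8c61_ag.N3.BK.P3D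

open Pool.Agent.MP_5d9b3c_ag Pool.Agent.MP_5d9b3c_ag.P3D

export Pool.Agent.MP_5d9b3c_ag.P3D (CBox CFace Dn U coe_ne dn3 ini_ne isMap_of k1 rA rc tw_at)

set_option linter.unusedSectionVars false

variable [Base]

open M3 M3RESID M3BK P3 P3K P3T P3B Set RPt
open Pool.Agent.MP_96693b_ag.RS (Loc LocOf)

noncomputable section

namespace CrsB

open Pool.Agent.MP_5d9b3c_ag.P3D.CrsB

section Gen

variable {K k k' : Type} [Field K] [Algebra ℂ K] [Field k] [Algebra ℂ k] [Field k'] [Algebra ℂ k']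
  {C C' : Co K 3} {Q : Loc K} {i i' j j' : Fin 3} {P : Pl K k} {C2 : Co k 2} {x : Loc k}
  {m : Fin 2} {G : DV k}

theorem g_eq {M : Mod 3} (hB : M3E.Bas1 M) {C C₀ : Co (KK 3) 3} {Q Q₀ : Loc (KK 3)}
    {P : Pl (KK 3) k} {P' : Pl (KK 3) k'} {C2₀ : Co k 2} {x₀ : Loc k} {C2' C2₀' : Co k' 2}
    {x' x₀' : Loc k'} {m₀ m' m₀' : Fin 2} {G' G₀' : DV k'} (hQ : Q ∈ M.pts) (hQ₀ : Q₀ ∈ M.pts)
    (T : Tw C Q i i' P C2 x m G) (T' : Tw C Q i' i P' C2' x' m' G')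
    (T₀ : Tw C₀ Q₀ j j' P C2₀ x₀ m₀ G) (T₀' : Tw C₀ Q₀ j' j P' C2₀' x₀' m₀' G₀') : G' = G₀' := by
  have e := (T.la2 T').symm.trans ((la_eq hB hQ hQ₀ T.le T₀.le).trans (T₀.la2 T₀'))
  refine M3B1.dv_uniq (SetLike.ext fun y => ⟨fun hy => ?_, fun hy => ?_⟩) T'.dat2.adp.vz
    T₀'.dat2.adp.vz
  · obtain ⟨g, hg, rfl⟩ := T'.lift_fn hy
    exact (T₀'.leA (e ▸ hg)).2
  · obtain ⟨g, hg, rfl⟩ := T₀'.lift_fn hy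
    exact (T'.leA (e ▸ hg)).2

end Gen

variable {p : ℕ} [Fact p.Prime] [Algebra ℚ_[p] ℂ] [Rgn p] {L k k' : Type}
  [Field L] [Algebra ℂ L] [Field k] [Algebra ℂ k] [Field k'] [Algebra ℂ k'] {A : GA ℚ_[p] L}
  {B : GA ℚ_[p] k} {B' : GA ℚ_[p] k'} {P : Pl L k} {P' : Pl L k'} {h : A.Cpt B P}
  {h' : A.Cpt B' P'} {c : CBox A 3} {i i' : Fin 3} {m m' : Fin 2} {g : CBox B 2} {g' : CBox B' 2}
  {G : DV k} {G' : DV k'} {E : GA ℚ_[p] G.kf} {E' : GA ℚ_[p] G'.kf} {a : A.fix} {μ : ℤ}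
  {α : Fin 3 → ℤ}

variable [Algebra.IsAlgebraic ℚ_[p] ℂ]

variable {ι : G'.kf ≃ₐ[ℂ] G.kf} {ι' : E'.fix ≃ₐ[ℚ_[p]] E.fix}

end CrsB

open CrsB

variable (p : ℕ) [Fact p.Prime] [Algebra ℚ_[p] ℂ] [Rgn p] [Algebra.IsAlgebraic ℚ_[p] ℂ]

theorem rCRSb : OfCRS p := by
  intro R B X o o' S S' G hG ψ ψ' σ θ μ y₀ y₀' g1 g1' hE s₀ on₀
  have hB := (X.eo.bas 3 X.f₀ X.M X.ok).toBas1
  have pts : ∀ b, ∀ t ∈ Bl p 3, (X.𝓑.c b).Q t ∈ X.M.pts := fun b t ht =>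
    (X.𝓑.pt b).imp fun _ h => h t ht
  have exG : ∀ (y : X.𝓑.F1 o × Fin 2) (y' : X.𝓑.F1 o' × Fin 2), Sw y y' →
      ∃ G', S'.B.InvO G' ∧ S'.On G' y' := fun y y' s => X.𝓑.crv _ _ y'.2 (by simp [y'.1.2])
    (by rw [← s.i', s.b, y.1.2]; simp) _ _ _ _ _ (S'.s.fc y'.1)
  obtain ⟨G', hG', on₀'⟩ := exG _ _ s₀
  have T := tw0 (S.s.fc y₀.1) on₀ s₀.i
  have T' := tw0 (s₀.b ▸ S'.s.fc y₀'.1 :
    CFace (X.𝓑.c y₀.1.1.1) (rc S'.inv) y₀'.1.1.2 (S'.s.g y₀'.1)) on₀' s₀.i'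
  obtain ⟨⟨ι, hι⟩, -⟩ := rIso _ _ _ _ _ _ _ _ _ _ _ _ _ _ _ _ _ T T'
  obtain ⟨a, ha⟩ := pts y₀.1.1.1 0 zero_Bl
  have hp := pt3 X.ok (X.eo.nb 3 _ _ X.ok) ha
  obtain ⟨j, hj⟩ := (hp.on o).1 T.dat.le
  obtain ⟨j', hj'⟩ := (hp.on o').1 T'.dat.le
  have hne : j' ≠ j := fun e => T.ne (X.𝓑.inj _ _ _ o' (s₀.b ▸ y₀'.1.2)
    (y₀.1.2.trans (hj.symm.trans (e ▸ hj'))))
  obtain ⟨C20, m₀, T0⟩ := tw_chg T hp.rg (hp.dat j o hj) T'.dat (hp.dat j' o' hj') hne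
  obtain ⟨C20', m₀', T0'⟩ := tw_chg T' hp.rg (hp.dat j' o' hj') T.dat (hp.dat j o hj) hne.symm
  obtain ⟨c, n, c0, H⟩ := rCrp X.eo X.f₀ X.la X.b X.β X.q X.M o o' _ _ _ _ S.e S.v S'.e S'.v ψ ψ'
    G G' σ θ μ ι _ _ _ _ _ _ _ _ _ _ _ X.hyp X.ok (B.ex X o S.pol) (B.ex X o' S'.pol) S.sta.rd
    S.sta.rs S'.sta.rd S'.sta.rs g1 g1' hE ⟨a, ha⟩ hp hj hj' T0 T0' hι
  obtain ⟨ι', hι'⟩ := ex_iso ι (hι.eqv S.B T T' (rc S.inv) (rc hG) (rc S'.inv) (rc hG')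
    fun τ g hg => (((X.𝓑.c _).fx 0 zero_Bl).mem τ).2 hg)
  have ψ0 : ψ ≠ 0 := fun e => g1.1 (congrArg Subtype.val e)
  have ψ0' : ψ' ≠ 0 := fun e => g1'.1 (congrArg Subtype.val e)
  have key : ∀ y y', Sw y y' → S.On G y → S'.On G' y' ∧ (S'.δ2 hG' y').map ι' = S.δ2 hG y ∧
      (S.th hG ψ y.1 ^ G'.v ψ' * ι' (S'.th hG' ψ' y'.1) ^ G.v ψ *
        (S.δ2 hG y).u ^ (G.v ψ * G'.v ψ') : (rA hG).fix) = algebraMap ℂ G.kf c * (σ : G.kf) ^ n ∧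
      ∀ q q', CFace (S.s.g y.1) (rc hG) y.2 q → CFace (S'.s.g y'.1) (rc hG') y'.2 q' →
        q'.b.IsMap ι' q.b := by
    intro y y' s on
    obtain ⟨G'', -, on'⟩ := exG _ _ s
    obtain ⟨⟨⟨b, i⟩, hb⟩, m⟩ := y
    obtain ⟨⟨⟨b', i'⟩, hb'⟩, m'⟩ := y'
    obtain ⟨rfl, e, e'⟩ := s
    have hf := S.s.fc ⟨(b', i), hb⟩
    have hf' := S'.s.fc ⟨(b', i'), hb'⟩
    have U := tw0 hf on e
    obtain rfl := g_eq hB (pts b' 0 zero_Bl) ⟨a, ha⟩ U (tw0 hf' on' e') T T'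
    have U' := tw0 hf' on' e'
    obtain ⟨hI, -, H1⟩ := H _ (pts b' 0 zero_Bl) _ _ _ _ _ _ _ _ _ U U'
    obtain ⟨α, a1⟩ := X.𝓑.mf b'
    obtain ⟨α', a2⟩ := X.𝓑.mj b'
    have nn : ∀ (w : X.M.J → ℕ) l, 0 ≤ (X.𝓑.lab b' l).elim (0 : ℤ) fun j => w j := fun w l => by
      rcases X.𝓑.lab b' l with _ | j
      exacts [le_rfl, Int.natCast_nonneg _]
    have k1 := ini_sw hf hf' on on' (rc hG) (rc hG') e e' hι' hI a1 (nn X.M.a)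
    refine ⟨on', ?_, ?_, fun q q' hq hq' => (isMap_of hf hf' hq hq' e e' hι' fun t ht t1 t2 =>
      (H _ (pts b' t ht) _ _ _ _ _ _ _ _ _ (tw_at hf on e ht t1 t2)
        (tw_at hf' on' e' ht t2 t1)).1).1⟩
    · have k2 := ini_sw hf hf' on on' (rc hG) (rc hG') e e' hι' hI a2 (nn X.M.k)
      simp only [ES.δ2, ES.δ, Dn.rs, Dn.map, Dn.w, dn3, hf.zf, hf'.zf, Box.jac_self, mul_one,
        one_mul, Dn.mk.injEq]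
      exact ⟨k1, k2, funext (z_sw hf hf' on on' (rc hG) (rc hG') e e' hι' hI)⟩
    · have z1 : G.pl.o.v ((S.s.g _).b.z m) = 1 := (S.s.g _).z m ▸ U.dat2.adp.vz
      have z2 : G''.pl.o.v ((S'.s.g _).b.z m') = 1 := (S'.s.g _).z m' ▸ U'.dat2.adp.vz
      obtain ⟨v1, w1⟩ := ini2 hf on (rc hG) e a1
      have v2 := (ini2 hf' on' (rc hG') e' a1).1
      have t1 := (R.ini (rc hG) z1 ψ0 (ini_ne (rc S.inv) hf.vz a1.ne)).2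
      have t2 := (R.ini (rc hG') z2 ψ0' (ini_ne (rc S'.inv) hf'.vz a1.ne)).2
      have u0 := coe_ne (ini_ne (rc hG) z1 (ini_ne (rc S.inv) hf.vz a1.ne))
      simp only [hb, hb', Option.elim_some] at v1 v2 w1
      rw [← H1, ← X.fe, ← w1, ← (S.s.g _).z, ← (S'.s.g _).z]
      refine Eq.trans (congrArg Subtype.val (congrArg₂ (fun s t => s ^ _ * ι' t ^ _ * _) t1 t2)) ?_
      rw [map_mul, map_zpow₀, map_zpow₀, k1]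
      simp only [Subfield.coe_mul, coe_zp, hι', coe_ini (rc hG) z1 ψ0, coe_ini (rc hG') z2 ψ0']
      rw [← v1, ← v2]
      exact alg u0 _ _ _ _ _ _
  obtain ⟨c, rfl⟩ := mon_desc (rA hG) σ.2 (p1_ne hE.p1)
    ((key _ _ s₀ on₀).2.2.1 ▸ Subtype.property _)
  refine ⟨G', hG', ι', c, n, fun e => c0 (by rw [e, map_zero]), fun y y' s on => ?_⟩
  obtain ⟨k1, k2, k3, k4⟩ := key y y' s on
  exact ⟨k1, k2, Subtype.ext (k3.trans (by rw [Algebra.smul_def, Subfield.coe_mul, coe_zp]; rfl)),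
    k4⟩

end

end Pool.Agent.MP_ee8c61_ag.N3.BK.P3D
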