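import Pool.Agent.MP_5d9b3c_ag.O3D.Asm0
import Pool.Agent.MP_5d9b3c_ag.O3D.RCrsB

/-! The cancellation of the pole. -/

namespace Pool.Agent.MP_ee8c61_ag.N3.BK.P3D

variable [Base] (p : ℕ) [Fact p.Prime] [Algebra ℚ_[p] ℂ] [Rgn p] [Algebra.IsAlgebraic ℚ_[p] ℂ]

theorem sBK (E : M3E.EOut) (hO : M3.SCON) : SBK p :=
  sbk_rows p E hO (rCRSb p)

end Pool.Agent.MP_ee8c61_ag.N3.BK.P3D
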