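import Pool.Agent.MP_5d9b3c_ag.P3D.Flag
import Pool.Agent.MP_5d9b3c_ag.O3D.SpecX
import Pool.Agent.MP_5d9b3c_ag.P3K.Mono
import Pool.Agent.MP_ee8c61_ag.N3BK.RSurf
import Pool.Agent.MP_ee8c61_ag.M3BK.RFl
import Pool.Agent.MP_ee8c61_ag.M3BK.RCrv

/-!
The strict transform of a double curve is met by a box.
-/

namespace Pool.Agent.MP_ee8c61_ag.N3.BK.P3D

open Pool.Agent.MP_5d9b3c_ag Pool.Agent.MP_5d9b3c_ag.P3D

export Pool.Agent.MP_5d9b3c_ag.P3D (AK CBox sh up xK)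

set_option linter.unusedSectionVars false

variable [Base]

open M3 M3RESID M3BK P3 P3K P3T Set
open Pool.Agent.MP_96693b_ag.RS (Loc)
open Pool.Agent.MP_96693b_ag

noncomputable section

namespace FLG

open Pool.Agent.MP_5d9b3c_ag.P3D.FLG

section Gen

variable {L k : Type} [Field L] [Algebra ℂ L] [Field k] [Algebra ℂ k] {V : ValuationSubring L}
  {x : Loc L} {g : L}

variable {F : Type} [Field F] [Algebra F ℂ] {A : GA F L} {B : GA F k}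

end Gen

section Mdl

variable {N : ℕ} {f : Po N} {M W : Mod N} {Q Q' : Loc (KK N)} {V : Vl N}

/-- The centre on a dominating model dominates the centre. -/
theorem dom_le (B : M3E.Bas f M) (D : Dom W M) {a : M.ι} (hQ : RS.LocOf (M.S.A a) Q)
    (hQ' : Q' ∈ W.pts) (h : Le Q V) (h' : Dm Q' V) : Q.O ≤ Q'.O := by
  obtain ⟨b, hb⟩ := hQ'
  obtain ⟨a', ha'⟩ := D.loc b V fun g hg => h'.1 g (hb.le hg)
  have h1 : M.S.A a' ≤ Q'.O := fun g hg => mem_of_lc h' hb.le (ha' g hg)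
  exact le_of hQ h h' fun g hg => mem_of_lc h' h1
    (B.lc a a' V (fun g hg => h g (hQ.le hg)) (fun g hg => h'.1 g (h1 hg)) g hg)

/-- The equation of a divisor divides the functions that vanish on it. -/
theorem div_η (h : M.OK f) (B : M3E.Bas f M) {a : M.ι} (hQ : RS.LocOf (M.S.A a) Q) {j : M.J}
    (hj : M.On Q j) {g : KK N} (hg : g ∈ Q.O) (h1 : g ∈ (M.v j).F 1) : g / M.η a j ∈ Q.O := by
  have hb : M.In a (M.v j).O := fun g hg => hj g (hQ.le hg)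
  obtain ⟨-, h2, -⟩ := B.in_v a _ j hb ((B.thru_v j j).2 rfl)
  obtain ⟨r, hr, q, hq, h0, e⟩ := hQ.frac g hg
  have h3 := (h.dv a j h2).2.2 r hr (e ▸ F_mul0' h1 (hb q hq))
  have := mul_mem (hQ.le h3) (Q.inv_mem q (hQ.le hq) h0)
  rwa [← e, mul_right_comm g, mul_inv_cancel_right₀ (RS.Loc.ne_zero_of_ev h0),
    ← div_eq_mul_inv] at this

theorem η_F1 (B : M3E.Bas f M) {a : M.ι} {j : M.J} (hb : M.In a (M.v j).O) :
    M.η a j ∈ (M.v j).F 1 := RSurf.F1_of (hb _ (B.η_mem a j))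
  ((B.thru_iff a _ j hb).1 ((B.thru_v j j).2 rfl))

/-- A second divisor through the centre. -/
theorem second (B : M3E.Bas f M) (B' : M3E.Bas f W) (D : Dom W M) {a : M.ι} {b : W.ι}
    {o o' : M.J} (ho : o' ≠ o) (ha : M.In a V) (hb : W.In b V) (hV : V ≤ (M.v o).O)
    (hn : ¬Un V (M.η a o')) : ∃ j, j ≠ D.e o ∧ ¬Un V (W.η b j) := by
  by_contra hc
  push Not at hc
  have ha' : M.In a (M.v o).O := fun g hg => hV (ha g hg)
  have hb' : W.In b (W.v (D.e o)).O := fun g hg => by rw [D.v]; exact hV (hb g hg)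
  have h1 : Un (M.v o).O (M.η a o') := by
    by_contra e
    exact ho ((B.thru_v o o').1 ((B.thru_iff a _ o' ha').2 e))
  have h2 := D.mon a b V ha hb o'
  have h3 : Un (M.v o).O (W.mon b fun i => D.m i o') := by
    have := h1.div (h2.mono hV)
    rwa [div_div_cancel₀ h1.1] at this
  have h4 := B'.v_mon b (D.e o) (fun i => D.m i o') hb'
  rw [D.v, ((M.v o).un_O.1 h3).2] at h4
  have h5 : Un V (W.mon b fun i => D.m i o') := B'.un_of b V _ hb fun j hj => by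
    by_cases e : j = D.e o
    · rw [e, h4]
    · exact absurd (hc j e) ((B'.thru_iff b V j hb).1 hj)
  have := h2.mul h5
  rw [div_mul_cancel₀ _ h5.1] at this
  exact hn this

end Mdl

section Face

variable {L k : Type} [Field L] [Algebra ℂ L] [Field k] [Algebra ℂ k] {n : ℕ} {p : ℕ}
  [Fact p.Prime] [Algebra ℚ_[p] ℂ] [Rgn p] [Algebra.IsAlgebraic ℚ_[p] ℂ] {A : GA ℚ_[p] L}
  {B : GA ℚ_[p] k} {P : Pl L k} {h : A.Cpt B P} {c : CBox A (n + 1)} {i : Fin (n + 1)}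
  {g : CBox B n} {t : Fin n → ℚ_[p]}

end Face

end FLG

open FLG in
theorem rFlag (E : M3E.EOut) (p : ℕ) [Fact p.Prime] [Algebra ℚ_[p] ℂ] [Rgn p]
    [Algebra.IsAlgebraic ℚ_[p] ℂ] : SFLAG p := by
  rintro f₀ f M W D 𝓑 𝓦 o k _ _ B P h s s' G hM hW hS hG ⟨⟨⟨⟨⟨b, i⟩, hi⟩, m⟩, hm, hon⟩⟩
  have BM := E.bas 3 f₀ M hM
  have BW := E.bas 3 f₀ W hW
  have z2 : (0 : Fin 2 → ℚ_[p]) ∈ Bl p 2 := zero_bl
  have hf := s.fc ⟨(b, i), hi⟩
  set g := s.g ⟨(b, i), hi⟩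
  have hd := hon 0 z2 rfl
  have hr := g.rg 0 z2
  have ht₀ := Box.ins_bl i z2
  set t₀ : Fin 3 → ℚ_[p] := i.insertNth 0 0 with e₀
  have hp : Pr P ((𝓑.c b).Q t₀) (g.Q 0) := pr hf z2
  obtain ⟨V, hV1, hV2, hV3, hV4⟩ := exists_fl hr hd (g.fx 0 z2) hG
  have hc : ∀ c : ℂ, algebraMap ℂ k c ∈ V := fun c => hV2 _ ((g.Q 0).O.algebraMap_mem c)
  obtain ⟨a, ha⟩ := 𝓑.pt b
  have ha := ha t₀ ht₀
  have hx : ∀ l, N3.xx 3 l ∈ ((𝓑.c b).Q t₀).O := fun l => ha.le (hM.xx_mem a _)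
  obtain ⟨Q', hQ', ho', hl⟩ := RSurf.exists_pt hW BW s'.po V hc (by
    rintro _ ⟨l, rfl⟩
    exact hV2 _ (hp.mem (hx l)))
  have hdm := hV1.lift.dm hl
  have hl₀ := RSurf.le_lift hp hV2
  have hle := dom_le BM D ha hQ' hl₀ hdm
  have hfx : (AK p).FixL Q' := fun σ =>
    (RSurf.sep BW hQ' (hS σ Q' hQ') hdm (le_loc (stb_lift h hV3) hl σ)).symm
  obtain ⟨β, t', ht', rfl⟩ := 𝓦.all Q' hQ' hfx fun l =>
    ⟨_, (𝓑.itg b t₀ ht₀ _ ⟨l, rfl⟩).2,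
      (RS.Loc.ev_eq_of_le hle (ha.le (tK_mem hM a l))).trans
        ((𝓑.c b).ev t₀ ht₀ (tK p l)).symm⟩
  obtain ⟨i', hi', h0⟩ := (𝓦.on β t' ht' _).1 ho'
  obtain ⟨t, ht, rfl⟩ := exists_ins ht' h0
  have hf' := s'.fc ⟨(β, i'), hi'⟩
  set g' := s'.g ⟨(β, i'), hi'⟩ with eg
  have hp' : Pr P ((𝓦.c β).Q (i'.insertNth 0 t)) (g'.Q t) := pr hf' ht
  have hr' := g'.rg t ht
  have hxV : Le (g'.Q t) V := fun y hy => by
    obtain ⟨u, hu, rfl⟩ := (hp'.2 y).1 hy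
    exact (hl u hu).2
  have hxG : Le (g'.Q t) G.O := fun y hy => hV4 (hxV y hy)
  have hxx : (g.Q 0).O ≤ (g'.Q t).O := fun y hy => by
    obtain ⟨u, hu, rfl⟩ := (hp.2 y).1 hy
    exact hp'.mem (hle hu)
  have hthr : Thr (g'.Q t) G := ⟨⟨_, hd.adp.vz⟩, hxG, fun e =>
    ((rFl k _ _ m hr).2.2.1 G hd).1.2.2 ⟨hd.le, fun y hy h0 =>
      e.2 y (hxx hy) ((RS.Loc.ev_eq_of_le hxx hy).trans h0)⟩⟩
  obtain ⟨o', ho⟩ := Option.ne_none_iff_exists'.1 hm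
  replace ho : 𝓑.lab b (i.succAbove m) = some o' := ho
  have hne : o' ≠ o := fun e => i.succAbove_ne m (𝓑.inj b _ _ o (e ▸ ho) hi)
  have hd' := 𝓑.dat b _ o' ho t₀ ht₀ (by simp [e₀])
  have hl₁ := RSurf.le_lift hp (V := G.O) hd.le
  have hl₂ := RSurf.le_lift hp' hxG
  obtain ⟨b', hb'⟩ := hQ'
  have hz := ((𝓑.c b).rg t₀ ht₀).st.z (i.succAbove m)
  have hn : ¬Un (RSurf.lift P G.O) (M.η a o') := by
    have h1 := hd'.div _ (ha.le (BM.η_mem a o')) (η_F1 BM fun u hu => hd'.le u (ha.le hu))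
    rw [← div_mul_cancel₀ (M.η a o') ((sh (𝓑.c b).C (up t₀)).ne (i.succAbove m))]
    refine not_un_mul (hl₁ _ h1) (hl₁ _ hz) fun e => ?_
    have := (G.un_O.1 (RSurf.un_lift.1 e).2).2
    rw [← rsC hf z2 m, hd.adp.vz] at this
    exact one_ne_zero this
  obtain ⟨j, hj, hu⟩ := second BM BW D hne (fun u hu => hl₁ u (ha.le hu))
    (fun u hu => hl₂ u (hb'.le hu)) (s.po ▸ RSurf.lift_le) hn
  have hon' := (RSurf.on_iff hW BW hb' j).2 (by_contra fun e => hu (RSurf.un_of_ev hl₂ e))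
  obtain ⟨i'', hi'', h0'⟩ := (𝓦.on β _ ht' j).1 hon'
  obtain ⟨m', rfl⟩ := Fin.exists_succAbove_eq (x := i'') (y := i') fun e =>
    hj (Option.some.inj ((e ▸ hi'').symm.trans hi'))
  have hd'' := 𝓦.dat β _ j hi'' _ ht' h0'
  have hz' := ((𝓦.c β).rg _ ht').st.z (i'.succAbove m')
  have hv : G.v ((sh g'.C (up t)).z m') ≠ 0 := fun e => by
    have h1 := div_η hW BW hb' hon' hz' (Or.inr hd''.adp.vz.ge)
    have h2 := not_un_mul (hl₂ _ h1) (hl₂ _ (hb'.le (BW.η_mem b' j))) hu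
    rw [div_mul_cancel₀ _ (W.η_ne b' j)] at h2
    exact h2 (RSurf.un_lift.2 ⟨hp'.1 _ hz', by
      rw [← rsC hf' ht m']
      exact G.un_O.2 ⟨Co.ne _ _, e⟩⟩)
  obtain ⟨m'', hG'⟩ := (rCrv k _ _ G hr' hthr).2.2.resolve_right fun e => hv (e.1 m')
  obtain rfl : m' = m'' := by
    by_contra e
    exact hv (by rw [hG'.adp.v, if_neg e])
  have hne' : 𝓦.lab β (i'.succAbove m') ≠ none := by rw [hi'']; simp
  obtain ⟨G', -, hG''⟩ := 𝓦.crv β i' m' (by rw [hi']; simp) hne' k B P h g' hf'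
  obtain rfl : G' = G := RFl.dat_uniq hr' (hG'' t ht (by simpa using h0')) hG'
  exact ⟨⟨(⟨(β, i'), hi'⟩, m'), hne', hG''⟩⟩

end

end Pool.Agent.MP_ee8c61_ag.N3.BK.P3D
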