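import Pool.Agent.MP_5d9b3c_ag.O3D.SpecX
import Pool.Agent.MP_5d9b3c_ag.P3K.Spec

/-!
The box sum of a family of boxes on a stable model.
-/

namespace Pool.Agent.MP_ee8c61_ag.N3.BK.P3D

open Pool.Agent.MP_5d9b3c_ag Pool.Agent.MP_5d9b3c_ag.P3D

set_option linter.unusedSectionVars false

variable [Base]

open M3 M3RESID P3 P3K P3T Set

noncomputable section

variable {p : ℕ} [Fact p.Prime] [Algebra ℚ_[p] ℂ] [Rgn p]

variable [Algebra.IsAlgebraic ℚ_[p] ℂ]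

namespace Fam

variable {M : Mod 3} {f : (AK p).fix} (𝓑 : Fam M f)

/-- The monomial data of the form `d x` and of the function `f`. -/
def md (b : 𝓑.ι) : MD Unit 3 where
  c := (𝓑.mj b).choose
  ν i := (𝓑.lab b i).elim 0 M.kk + 1
  m _ := (𝓑.mf b).choose
  A _ i := (𝓑.lab b i).elim 0 M.aa

theorem md_adp (b : 𝓑.ι) : (𝓑.c b).b.Adp 1 (xK p) (fun _ => f) (𝓑.md b) :=
  ⟨by simpa only [md, one_mul, add_sub_cancel_right] using (𝓑.mj b).choose_spec,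
    fun _ => (𝓑.mf b).choose_spec⟩

/-- The box sum has no pole at `T`. -/
def Np (T : ℂ) : Prop := ∃ (K : Type) (_ : CommRing K) (_ : Algebra ℂ K) (ξ : Kˣ)
  (O : Subalgebra ℂ K) (ε : O →ₐ[ℂ] ℂ) (hξ : (ξ : K) ∈ O), ε ⟨ξ, hξ⟩ = T ∧
  (∀ b, (𝓑.md b).ND p fun _ => ξ) ∧ ∑ b, (𝓑.md b).val p (fun _ => ξ) ∈ O

/-- There is no pole outside the candidates. -/
theorem np_of {T : ℂ} (hT : T ≠ 0) (h : ∀ j, T ^ M.a j ≠ (p : ℂ) ^ (M.k j + 1)) : 𝓑.Np T := by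
  have hp : (p : ℂ) ≠ 0 := Nat.cast_ne_zero.2 (Fact.out : p.Prime).ne_zero
  refine ⟨ℂ, _, _, Units.mk0 T hT, ⊤, (⊤ : Subalgebra ℂ ℂ).val, trivial, rfl,
    fun b l => Ne.isUnit fun e => ?_, trivial⟩
  rw [MD.den, sub_eq_zero, Fintype.prod_unique, Units.val_zpow_eq_zpow_val, Units.val_mk0,
    zpow_neg, Algebra.algebraMap_self_apply, eq_comm,
    inv_mul_eq_one₀ (zpow_ne_zero _ hp)] at e
  simp only [Fam.md] at e
  cases hl : 𝓑.lab b l with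
  | none =>
    rw [hl] at e
    exact (Fact.out : p.Prime).ne_one (by simpa using e)
  | some j =>
    rw [hl] at e
    exact h j (by simpa [Mod.kk, Mod.aa, zpow_add_one₀ hp, pow_succ] using e.symm)

end Fam

end

end Pool.Agent.MP_ee8c61_ag.N3.BK.P3D
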