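import Pool.Agent.MP_5d9b3c_ag.O3D.Kit

/-! The cross terms of a double curve cancel. -/

namespace Pool.Agent.MP_ee8c61_ag.N3.BK.P3D

open Pool.Agent.MP_5d9b3c_ag Pool.Agent.MP_5d9b3c_ag.P3D

export Pool.Agent.MP_5d9b3c_ag.P3D (kk)

set_option linter.unusedSectionVars false

variable [Base]

open M3 M3RESID M3BK P3 P3K P3T Set

variable {p : ℕ} [Fact p.Prime] [Algebra ℚ_[p] ℂ] [Rgn p] [Algebra.IsAlgebraic ℚ_[p] ℂ]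

namespace RHJ

variable {X : Ctx p} {o o' : X.M.J}

theorem aa_ne (h : X.Pol o) : (X.M.aa o : ℂ) ≠ 0 := fun e => by
  have h1 := congrArg norm h
  rw [Int.cast_eq_zero.1 e, zpow_zero, norm_one, norm_zpow, Complex.norm_natCast] at h1
  exact (one_lt_zpow₀ (H72.one_lt_p (p := p)) (Int.natCast_succ_pos (X.M.k o))).ne h1

theorem pol (hR : SRES p) (hB : SBAS p) (S : ES X o) {G : DV S.k} {y : X.𝓑.F1 o × Fin 2}
    (h : S.s.lb y = some o') (h' : X.Pol o') (hy : S.On G y) :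
    S.Pl y ∧ (S.δ y.1).Pol X.T (S.s.g y.1) G ∧ G.v (S.δ y.1).u = X.M.aa o' := by
  have h1 := (hB.pl S y).2 ⟨o', h, h'⟩
  obtain ⟨h2, h3, -⟩ := hR.pol (T := X.T) hy (hB.adp S y.1)
  refine ⟨h1, h2.2 h1, h3.symm.trans ?_⟩
  have h4 : X.𝓑.lab y.1.1.1 (y.1.1.2.succAbove y.2) = some o' := h
  simp [kk, ES.d, face, X.dA, h4]

theorem lb (S' : ES X o') {y : X.𝓑.F1 o × Fin 2} {y' : X.𝓑.F1 o' × Fin 2} (h : Sw y y') :
    S'.s.lb y' = some o := by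
  rw [Fam.Fc.lb, ← h.i', h.b]
  exact y.1.2

end RHJ

variable (p)

open RHJ in
theorem rHJ : OfHJ p := by
  intro hF hC hJ hV hR hD hB hU hX X o o' S S' ψ R ψ' R' G hG w O O' hw
  classical
  rw [Finset.sum_subtype (p := fun y => S.s.lb y = some o' ∧ S.On G y) (F := inferInstance) _
    (fun y => by simp)]
  rcases isEmpty_or_nonempty {y // S.s.lb y = some o' ∧ S.On G y} with h | ⟨⟨y₀, l₀, n₀⟩⟩
  · simp
  choose c hc using fun x : S.s.F2 G => hF _ _ _ _ _ _ (rc hG) (S.s.g x.1.1) x.1.2 x.2.2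
  let e : {y // S.s.lb y = some o' ∧ S.On G y} → S.s.F2 G := fun y =>
    ⟨y.1, by simp [y.2.1], y.2.2⟩
  obtain ⟨-, p₀, -⟩ := pol hR hB S l₀ S'.pol n₀
  obtain ⟨σ, g₀, ⟨θ, μ, eu⟩, x₀, -⟩ := hU S y₀.1 _ hG y₀.2 _ (hc (e ⟨y₀, l₀, n₀⟩)) p₀
  obtain ⟨y₀', s₀⟩ := exists_sw y₀ l₀
  obtain ⟨G', hG', ι, a, j, a0, hι⟩ := hX S S' hG ψ ψ' σ θ μ y₀ y₀' O.gd O'.gd eu s₀ n₀
  obtain ⟨c1, c2, c3⟩ := hC X.f₀ X.f X.M X.𝓑 o _ _ _ _ _ S.s _ G.pl (rc hG) c X.ok X.stp hc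
  have key : ∀ y : {y // S.s.lb y = some o' ∧ S.On G y}, (G.v ψ ≠ 0 ∧ G'.v ψ' ≠ 0) ∧ ∃ A,
      JV X.T (c (e y)).b (S.δ2 hG y.1) (a • σ ^ j) A
        (-(G.v ψ * G'.v ψ' * (X.M.aa o * X.M.aa o')) * w y) := fun y => by
    obtain ⟨y', s⟩ := exists_sw y.1 y.2.1
    obtain ⟨n', e1, e2, e3⟩ := hι y y' s y.2.2
    obtain ⟨q, hq⟩ := hF _ _ _ _ _ _ (rc hG') (S'.s.g y'.1) y'.2 n'
    obtain ⟨p1, -, v1⟩ := pol hR hB S y.2.1 S'.pol y.2.2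
    obtain ⟨p2, p3, v2⟩ := pol hR hB S' (lb S' s) S.pol n'
    obtain ⟨z1, A, j1⟩ := O.jv y p1 G hG _ (hc (e y))
    obtain ⟨z2, A', j2⟩ := O'.jv y' p2 G' hG' q hq
    obtain ⟨σ', g', -⟩ := hU S' y'.1 _ hG' y'.2 q hq p3
    have ad := hR.adp hq (hB.adp S' y'.1)
    have j3 := hJ.map (e3 _ q (hc (e y)) hq) (hJ.self 0 1 ad (hV.np X.lam g' (.refl _) ad))
    have j4 := hJ.map (e3 _ q (hc (e y)) hq) j2
    have e4 : ι (S'.δ2 hG' y').u = (S.δ2 hG y).u := congrArg Dn.u e1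
    rw [zpow_zero, one_mul, zpow_one] at j3
    have j5 : JV X.T (c (e y)).b ((S'.δ2 hG' y').map ι) (ι (S'.δ2 hG' y').u) _ _ := j3
    rw [e1] at j4 j5
    rw [e4] at j5
    have j6 := hJ.mul 1 (G.v ψ * G'.v ψ') (hJ.mul (G'.v ψ') (G.v ψ) j1 j4) j5
    rw [zpow_one, e2] at j6
    refine ⟨⟨z1, z2⟩, A, Eq.mp (congrArg (JV _ _ _ _ _) ?_) j6⟩
    have := aa_ne S.pol
    have := aa_ne S'.pol
    rw [hw y y' s, v1, v2]
    push_cast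
    field_simp
    ring
  choose z A hA using key
  have h := (hV.cur (c := fun y => (c (e y)).b) X.lam
    ⟨fun i i' t ht s hs h => Subtype.ext (congrArg Subtype.val (c1.dis _ _ t ht s hs h) :),
      fun i => c2 (e i), cov_of (fun x : {x : S.s.F2 G // S.s.lb x.1 = S.s.lb y₀} =>
        ⟨x.1.1, x.2.trans l₀, x.1.2.2⟩) (c3 (e ⟨y₀, l₀, n₀⟩))⟩ x₀ g₀
    (fun y => (hD X.lam (hc (e ⟨y₀, l₀, n₀⟩)) (hc (e y)) (hB.le S _ _) (hB.ne S _ (S.s.g y₀.1).b).1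
      (hB.ne S _ _).2 p₀).2) hA).2 _ (g₀.nul a0 j) fun _ => rfl
  rw [← Finset.mul_sum] at h
  exact (mul_eq_zero.1 h).resolve_left (neg_ne_zero.2 (mul_ne_zero (mul_ne_zero
    (Int.cast_ne_zero.2 (z ⟨y₀, l₀, n₀⟩).1) (Int.cast_ne_zero.2 (z ⟨y₀, l₀, n₀⟩).2))
    (mul_ne_zero (aa_ne S.pol) (aa_ne S'.pol))))

end Pool.Agent.MP_ee8c61_ag.N3.BK.P3D
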